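import Pool.Agent.U801.NC.Final

/-!
# Rings with a commutative quotient
-/

set_option autoImplicit false

namespace Pool.Agent.U801.NC

open Matrix
open Pool.Agent.Helper460_CSP
open Pool.Agent.U943.PR

variable {n m : ℕ} {R : Type} [Ring R] {Λ : Subgroup (Matrix (Fin n) (Fin n) R)ˣ}

/-- Finite matrix rings as quotients of the ring. -/
theorem matrix_quotients (hn : 3 ≤ n) (hm : 3 ≤ m) (hE : HasEl Λ) (hq : SameQ Λ m) {F : Type}
    [Field F] [Finite F] (k : ℕ) (hk : k ≠ 0) (f : R →+* Matrix (Fin k) (Fin k) F)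
    (hf : Function.Surjective f) : n * k = m := by
  obtain ⟨ψ, hψ⟩ := exists_psi hE hq f hf
  exact residue_matrix hn hm hψ k hk (RingHom.id _) Function.surjective_id

/-- **A commutative quotient forces equal ranks.** -/
theorem comm_quotient (hn : 3 ≤ n) (hm : 3 ≤ m) (hE : HasEl Λ) (hfg : Group.FG Λ)
    (hq : SameQ Λ m) {C : Type} [CommRing C] [Nontrivial C] (f : R →+* C) : n = m := by
  let f₁ : R →+* f.range := f.rangeRestrict
  have hf₁ : Function.Surjective f₁ := f.rangeRestrict_surjective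
  let Λ₁ : Subgroup (GL (Fin n) f.range) := Λ.map (mU n f₁)
  have hE₁ : HasE Λ₁ := by
    intro i j h c
    obtain ⟨r, rfl⟩ := hf₁ c
    refine ⟨el h r, hE i j h r, ?_⟩
    apply Units.ext
    rw [mU_apply, el_val, map_elem]
    rfl
  have hfg₁ : Group.FG Λ₁ :=
    Group.fg_of_surjective ((mU n f₁).subgroupMap_surjective Λ)
  have hft := ring_fg hn hE₁ hfg₁
  obtain ⟨M, hM⟩ := Ideal.exists_maximal f.range
  let _ : Field (f.range ⧸ M) := Ideal.Quotient.field M
  have hft2 : @Algebra.FiniteType ℤ (f.range ⧸ M) _ _ (Ring.toIntAlgebra _) := by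
    have h2 : @Algebra.FiniteType ℤ f.range _ _ (Ring.toIntAlgebra f.range) := by
      convert hft
    exact Algebra.FiniteType.of_surjective (Ideal.Quotient.mk M).toIntAlgHom
      Ideal.Quotient.mk_surjective
  have hfin : Finite (f.range ⧸ M) := finite_field
  obtain ⟨ψ, hψ⟩ := exists_psi hE hq ((Ideal.Quotient.mk M).comp f₁)
    (Ideal.Quotient.mk_surjective.comp hf₁)
  exact (residue_field hn hm hψ (RingHom.id _) Function.surjective_id).1

end Pool.Agent.U801.NC
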