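import Pool.Agent.U943.PR.Euclid

/-!
# Characters of a block unipotent group in a representation in another characteristic

Let `F`, `F'` be finite fields of different characteristics.  If a homomorphism from
`SL (κ ⊕ Unit, F)`, where `κ` has at least two elements, to `PSL (ι, F')` is nontrivial on the
group of the matrices `1 + ∑ x_i E_{i, *}`, then `|F| ^ |κ| ≤ |ι| ^ 2 + 1`.
-/

set_option autoImplicit false

namespace Pool.Agent.U801.NC

open Matrix

/-- Counting the characters of the additive group `κ → F` in a representation in which they are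
permuted transitively. -/
lemma card_le_of_trans {K V F κ : Type*} [Field K] [AddCommGroup V] [Module K V]
    [FiniteDimensional K V] [Field F] [Fintype F] [Fintype κ] [DecidableEq κ]
    (ψ : AddChar F K) (hψ : ψ.IsPrimitive) (hq : (Fintype.card (κ → F) : K) ≠ 0)
    (u : (κ → F) → Module.End K V) (u0 : u 0 = 1) (uadd : ∀ x y, u (x + y) = u x * u y)
    (htr : ∀ b c : κ → F, b ≠ 0 → c ≠ 0 → ∃ t s : Module.End K V, s * t = 1 ∧
      ∀ y, ∃ x, b ⬝ᵥ x = c ⬝ᵥ y ∧ u y * t = t * u x)
    (hne : ∃ y, u y ≠ 1) :
    Fintype.card (κ → F) ≤ Module.finrank K V + 1 := by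
  classical
  -- orthogonality
  have horth : ∀ x : κ → F, ∑ b : κ → F, ψ (b ⬝ᵥ x) =
      if x = 0 then (Fintype.card (κ → F) : K) else 0 := by
    intro x
    split_ifs with hx
    · subst hx
      simp
    · obtain ⟨i, hi⟩ : ∃ i, x i ≠ 0 := by
        by_contra hcon
        push Not at hcon
        exact hx (funext hcon)
      let f : (κ → F) →+ F :=
        { toFun := fun b => b ⬝ᵥ x
          map_zero' := zero_dotProduct x
          map_add' := fun a b => add_dotProduct a b x }
      have h1 : (ψ.compAddMonoidHom f) ≠ 1 := by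
        intro h
        apply hψ hi
        ext c
        have h2 := DFunLike.congr_fun h (Pi.single i c)
        rw [AddChar.coe_compAddMonoidHom] at h2
        have h3 : f (Pi.single i c) = x i * c := by
          show Pi.single i c ⬝ᵥ x = x i * c
          rw [single_dotProduct, mul_comm]
        rw [Function.comp_apply, h3] at h2
        rw [AddChar.mulShift_apply]
        exact h2
      have h2 := AddChar.sum_eq_zero_of_ne_one h1
      exact h2
  let E : (κ → F) → Module.End K V := fun b => ∑ x, ψ (-(b ⬝ᵥ x)) • u x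
  have hE : ∀ b y, u y * E b = ψ (b ⬝ᵥ y) • E b := by
    intro b y
    simp only [E]
    rw [Finset.mul_sum, Finset.smul_sum,
      ← Equiv.sum_comp (Equiv.addRight y) (fun x => ψ (b ⬝ᵥ y) • ψ (-(b ⬝ᵥ x)) • u x)]
    refine Finset.sum_congr rfl fun x _ => ?_
    show u y * ψ (-(b ⬝ᵥ x)) • u x = ψ (b ⬝ᵥ y) • ψ (-(b ⬝ᵥ (x + y))) • u (x + y)
    rw [smul_smul, ← AddChar.map_add_eq_mul, mul_smul_comm, ← uadd, add_comm y x]
    congr 2
    rw [dotProduct_add]
    ring
  have hsum : ∑ b, E b = (Fintype.card (κ → F) : K) • (1 : Module.End K V) := by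
    simp only [E]
    rw [Finset.sum_comm]
    have h1 : ∀ x : κ → F, ∑ b : κ → F, ψ (-(b ⬝ᵥ x)) • u x =
        (if x = 0 then (Fintype.card (κ → F) : K) else 0) • u x := by
      intro x
      rw [← Finset.sum_smul]
      congr 1
      have h2 := horth (-x)
      simp only [neg_eq_zero] at h2
      rw [← h2]
      refine Finset.sum_congr rfl fun b _ => ?_
      rw [dotProduct_neg]
    rw [Finset.sum_congr rfl (fun x _ => h1 x)]
    simp only [ite_smul, zero_smul]
    rw [Finset.sum_ite_eq' Finset.univ 0, if_pos (Finset.mem_univ _), u0]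
  -- a nonzero joint eigenspace
  obtain ⟨b, hb0, v, hv0, hv⟩ : ∃ b : κ → F, b ≠ 0 ∧ ∃ v : V, v ≠ 0 ∧
      ∀ y, u y v = ψ (b ⬝ᵥ y) • v := by
    by_contra hcon
    push Not at hcon
    have hz : ∀ b : κ → F, b ≠ 0 → E b = 0 := by
      intro b hb
      ext v
      by_contra hne
      obtain ⟨y, hy⟩ := hcon b hb (E b v) hne
      apply hy
      have := congrArg (fun f : Module.End K V => f v) (hE b y)
      exact this
    have h0 : E 0 = (Fintype.card (κ → F) : K) • (1 : Module.End K V) := by
      rw [← hsum]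
      exact (Finset.sum_eq_single_of_mem 0 (Finset.mem_univ _) (fun b _ hb => hz b hb)).symm
    obtain ⟨y, hy⟩ := hne
    apply hy
    have h1 := hE 0 y
    rw [h0, zero_dotProduct, AddChar.map_zero_eq_one, one_smul, mul_smul_comm, mul_one] at h1
    exact smul_right_injective _ hq h1
  have hall : ∀ c : {c : κ → F // c ≠ 0}, ∃ w : V, w ≠ 0 ∧ ∀ y, u y w = ψ (c.1 ⬝ᵥ y) • w := by
    rintro ⟨c, hc⟩
    obtain ⟨t, s, hst, ht⟩ := htr b c hb0 hc
    refine ⟨t v, ?_, ?_⟩
    · intro h
      apply hv0
      have h1 : (s * t) v = 0 := by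
        rw [Module.End.mul_apply, h, map_zero]
      rwa [hst] at h1
    · intro y
      obtain ⟨x, hx1, hx2⟩ := ht y
      have h1 := congrArg (fun f : Module.End K V => f v) hx2
      simp only [Module.End.mul_apply] at h1
      rw [hv, map_smul, hx1] at h1
      exact h1
  choose w hw0 hw using hall
  have hli : LinearIndependent K w := by
    rw [Fintype.linearIndependent_iff]
    intro g hg c
    have h1 : ∀ d : {c : κ → F // c ≠ 0}, E c.1 (w d) =
        (if d = c then (Fintype.card (κ → F) : K) else 0) • w d := by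
      intro d
      simp only [E, LinearMap.sum_apply, LinearMap.smul_apply, hw, smul_smul]
      rw [← Finset.sum_smul]
      congr 1
      have h2 := horth (d.1 - c.1)
      have h3 : (d.1 - c.1 = 0) ↔ d = c := by rw [sub_eq_zero, Subtype.ext_iff]
      simp only [h3] at h2
      rw [← h2]
      refine Finset.sum_congr rfl fun x _ => ?_
      rw [← AddChar.map_add_eq_mul]
      congr 1
      rw [dotProduct_comm x, sub_dotProduct]
      ring
    have h2 := congrArg (E c.1) hg
    rw [map_sum, map_zero] at h2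
    simp only [map_smul, h1] at h2
    rw [Finset.sum_eq_single_of_mem c (Finset.mem_univ _) (by
      intro d _ hd
      rw [if_neg hd, zero_smul, smul_zero]), if_pos rfl, smul_smul] at h2
    rcases smul_eq_zero.1 h2 with h3 | h3
    · exact (mul_eq_zero.1 h3).resolve_right hq
    · exact absurd h3 (hw0 c)
  have h1 := hli.fintype_card_le_finrank
  have h2 : Fintype.card {c : κ → F // c ≠ 0} = Fintype.card (κ → F) - 1 := by
    rw [Fintype.card_subtype_compl, Fintype.card_subtype_eq]
  omega

section ad

variable {ι F' : Type*} [Fintype ι] [DecidableEq ι] [Field F'] (K : Type*) [Field K] [Algebra F' K]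

/-- the matrix over `K` -/
def GM (g : SpecialLinearGroup ι F') : Matrix ι ι K := (algebraMap F' K).mapMatrix g.1

lemma GM_mul (g h : SpecialLinearGroup ι F') : GM K (g * h) = GM K g * GM K h := by
  unfold GM
  rw [Matrix.SpecialLinearGroup.coe_mul, map_mul]

lemma GM_one : GM K (1 : SpecialLinearGroup ι F') = 1 := by
  unfold GM
  rw [Matrix.SpecialLinearGroup.coe_one, map_one]

/-- the adjoint representation -/
def ad : SpecialLinearGroup ι F' →* Module.End K (Matrix ι ι K) where
  toFun := fun g => LinearMap.mulLeft K (GM K g) * LinearMap.mulRight K (GM K g⁻¹)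
  map_one' := by
    ext X
    simp [GM_one]
  map_mul' := fun g h => by
    apply LinearMap.ext
    intro X
    simp only [Module.End.mul_apply, LinearMap.mulLeft_apply, LinearMap.mulRight_apply,
      _root_.mul_inv_rev, GM_mul, mul_assoc]

lemma ad_apply (g : SpecialLinearGroup ι F') (X : Matrix ι ι K) :
    ad K g X = GM K g * (X * GM K g⁻¹) := rfl

lemma ad_one_iff (g : SpecialLinearGroup ι F') :
    ad K g = 1 ↔ g ∈ Subgroup.center (SpecialLinearGroup ι F') := by
  have hinj : Function.Injective (algebraMap F' K) := (algebraMap F' K).injective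
  constructor
  · intro h
    rw [Subgroup.mem_center_iff]
    intro A
    have h1 := congrArg (fun f : Module.End K (Matrix ι ι K) => f (GM K A)) h
    simp only [ad_apply, Module.End.one_apply] at h1
    have h2 : GM K g * GM K A = GM K A * GM K g := by
      have h3 : GM K g * (GM K A * GM K g⁻¹) * GM K g = GM K A * GM K g := by rw [h1]
      rw [← h3, mul_assoc, mul_assoc, ← GM_mul K g⁻¹ g, inv_mul_cancel, GM_one, mul_one]
    rw [← GM_mul, ← GM_mul] at h2
    apply Subtype.ext
    have h3 := Matrix.map_injective hinj h2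
    exact h3.symm
  · intro h
    obtain ⟨r, -, hr⟩ := Matrix.SpecialLinearGroup.mem_center_iff.1 h
    have h1 : GM K g = Matrix.scalar ι (algebraMap F' K r) := by
      unfold GM
      rw [← hr]
      ext a b
      show algebraMap F' K (Matrix.scalar ι r a b) = _
      rw [Matrix.scalar_apply, Matrix.scalar_apply]
      by_cases hab : a = b
      · subst hab
        rw [Matrix.diagonal_apply_eq, Matrix.diagonal_apply_eq]
      · rw [Matrix.diagonal_apply_ne _ hab, Matrix.diagonal_apply_ne _ hab, map_zero]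
    apply LinearMap.ext
    intro X
    rw [ad_apply, Module.End.one_apply]
    have h2 : GM K g * X = X * GM K g := by
      rw [h1]
      exact (Matrix.scalar_commute _ (fun s => Commute.all _ s) X).eq
    rw [← mul_assoc, h2, mul_assoc, ← GM_mul, mul_inv_cancel, GM_one, mul_one]

end ad

section blocks

variable {κ F : Type*} [Fintype κ] [DecidableEq κ] [Field F]

/-- the matrix `1 + ∑ x_i E_{i, *}` -/
def uB (x : κ → F) : SpecialLinearGroup (κ ⊕ Unit) F :=
  ⟨fromBlocks 1 (replicateCol Unit x) 0 1, by rw [det_fromBlocks_zero₂₁, det_one, det_one, one_mul]⟩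

/-- the matrix with blocks `M` and `1` -/
def tB (M : SpecialLinearGroup κ F) : SpecialLinearGroup (κ ⊕ Unit) F :=
  ⟨fromBlocks M.1 0 0 1, by rw [det_fromBlocks_zero₂₁, M.2, det_one, one_mul]⟩

lemma uB_zero : uB (0 : κ → F) = 1 := by
  apply Subtype.ext
  show fromBlocks 1 (replicateCol Unit 0) 0 1 = 1
  rw [replicateCol_zero, fromBlocks_one]

lemma uB_add (x y : κ → F) : uB (x + y) = uB x * uB y := by
  apply Subtype.ext
  rw [Matrix.SpecialLinearGroup.coe_mul]
  show fromBlocks 1 (replicateCol Unit (x + y)) 0 1 =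
    fromBlocks 1 (replicateCol Unit x) 0 1 * fromBlocks 1 (replicateCol Unit y) 0 1
  rw [fromBlocks_multiply, replicateCol_add]
  simp [add_comm]

lemma tB_uB (M : SpecialLinearGroup κ F) (x : κ → F) : tB M * uB x = uB (M.1 *ᵥ x) * tB M := by
  apply Subtype.ext
  rw [Matrix.SpecialLinearGroup.coe_mul, Matrix.SpecialLinearGroup.coe_mul]
  show fromBlocks M.1 0 0 1 * fromBlocks 1 (replicateCol Unit x) 0 1 =
    fromBlocks 1 (replicateCol Unit (M.1 *ᵥ x)) 0 1 * fromBlocks M.1 0 0 1
  rw [fromBlocks_multiply, fromBlocks_multiply, replicateCol_mulVec]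
  simp

lemma SL_trans (hκ : 2 ≤ Fintype.card κ) (b c : κ → F) (hb : b ≠ 0) (hc : c ≠ 0) :
    ∃ N : SpecialLinearGroup κ F, N.1 *ᵥ b = c := by
  classical
  have : Nontrivial κ := Fintype.one_lt_card_iff_nontrivial.1 hκ
  obtain ⟨m, j₀, hmj⟩ := exists_pair_ne κ
  have key : ∀ v : κ → F, v ≠ 0 → ∃ g : SpecialLinearGroup κ F, g.1 *ᵥ v = Pi.single m 1 := by
    intro v hv
    obtain ⟨i, hi⟩ : ∃ i, v i ≠ 0 := by
      by_contra hcon
      push Not at hcon
      exact hv (funext hcon)
    obtain ⟨g, -, hg, -⟩ := Pool.Agent.U943.PR.reduce (D := F) (ι := κ)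
      (fun x => if x = 0 then 0 else 1)
      (fun x y hy => ⟨x / y, by
        rw [div_mul_cancel₀ x hy, sub_self]
        simp [hy]⟩)
      Finset.univ m j₀ (Finset.mem_univ _) (Finset.mem_univ _) hmj.symm _ v rfl
      (fun k hk => absurd (Finset.mem_univ k) hk)
      ⟨Pi.single i (v i)⁻¹, by
        rw [Finset.sum_eq_single i]
        · rw [Pi.single_eq_same, inv_mul_cancel₀ hi]
        · intro k _ hk
          rw [Pi.single_eq_of_ne hk, zero_mul]
        · intro h
          exact absurd (Finset.mem_univ i) h⟩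
    exact ⟨g, hg⟩
  obtain ⟨g, hg⟩ := key b hb
  obtain ⟨h, hh⟩ := key c hc
  refine ⟨h⁻¹ * g, ?_⟩
  rw [Matrix.SpecialLinearGroup.coe_mul, ← mulVec_mulVec, hg, ← hh, mulVec_mulVec,
    ← Matrix.SpecialLinearGroup.coe_mul, inv_mul_cancel, Matrix.SpecialLinearGroup.coe_one,
    one_mulVec]

end blocks

/-- **The bound in different characteristics.** -/
theorem cross {κ ι F F' : Type*} [Fintype κ] [DecidableEq κ] [Fintype ι] [DecidableEq ι]
    [Field F] [Finite F] [Field F'] (hκ : 2 ≤ Fintype.card κ)
    (hchar : ringChar F' ≠ ringChar F)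
    (Ψ : SpecialLinearGroup (κ ⊕ Unit) F →* ProjectiveSpecialLinearGroup ι F')
    (hΨ : ∃ x, Ψ (uB x) ≠ 1) :
    Nat.card F ^ Fintype.card κ ≤ Fintype.card ι ^ 2 + 1 := by
  classical
  have := Fintype.ofFinite F
  let P := AddChar.FiniteField.primitiveChar F F' hchar
  let K := CyclotomicField P.n F'
  have hker : Subgroup.center (SpecialLinearGroup ι F') ≤ ((ad (ι := ι) (F' := F') K).toHomUnits).ker := by
    intro g hg
    rw [MonoidHom.mem_ker]
    exact Units.ext ((ad_one_iff K g).2 hg)
  let Θ : ProjectiveSpecialLinearGroup ι F' →* Module.End K (Matrix ι ι K) :=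
    (Units.coeHom _).comp (QuotientGroup.lift _ ((ad (ι := ι) (F' := F') K).toHomUnits) hker)
  have hΘ : ∀ g : SpecialLinearGroup ι F', Θ (QuotientGroup.mk' _ g) = ad K g := fun g => rfl
  have hΘinj : ∀ s, Θ s = 1 → s = 1 := by
    intro s hs
    obtain ⟨g, rfl⟩ := QuotientGroup.mk'_surjective _ s
    rw [hΘ, ad_one_iff] at hs
    exact (QuotientGroup.eq_one_iff g).2 hs
  let T : SpecialLinearGroup (κ ⊕ Unit) F →* Module.End K (Matrix ι ι K) := Θ.comp Ψ
  have hq : (Fintype.card (κ → F) : K) ≠ 0 := by
    rw [Fintype.card_fun, Nat.cast_pow]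
    refine pow_ne_zero _ fun h => hchar ?_
    obtain ⟨k, hk1, hk2⟩ := FiniteField.card F (ringChar F)
    rw [hk2, Nat.cast_pow] at h
    have h2 := pow_eq_zero_iff k.ne_zero |>.1 h
    have h3 : ringChar F' = ringChar K := by
      have h4 : CharP K (ringChar F') := charP_of_injective_algebraMap (algebraMap F' K).injective _
      exact (ringChar.eq K (ringChar F')).symm ▸ rfl
    rw [h3]
    have h4 := (ringChar.spec K (ringChar F)).1 h2
    rcases (Nat.dvd_prime hk1).1 h4 with h5 | h5
    · exfalso
      have : CharP K 1 := h5 ▸ ringChar.charP K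
      exact CharP.false_of_nontrivial_of_char_one (R := K)
    · exact h5
  have h1 := card_le_of_trans P.char P.prim hq (fun x => T (uB x))
    (by show T (uB 0) = 1; rw [uB_zero, map_one])
    (fun x y => by show T (uB (x + y)) = T (uB x) * T (uB y); rw [uB_add, map_mul])
    (by
      intro b c hb hc
      obtain ⟨N', hN'⟩ := SL_trans hκ b c hb hc
      let M : SpecialLinearGroup κ F := (N'.transpose)⁻¹
      refine ⟨T (tB M), T (tB M)⁻¹, by rw [← map_mul, inv_mul_cancel, map_one], fun y => ?_⟩
      refine ⟨N'.transpose.1 *ᵥ y, ?_, ?_⟩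
      · rw [dotProduct_mulVec]
        congr 1
        show b ᵥ* N'.1ᵀ = c
        rw [vecMul_transpose, hN']
      · show T (uB y) * T (tB M) = T (tB M) * T (uB (N'.transpose.1 *ᵥ y))
        rw [← map_mul, ← map_mul, tB_uB, mulVec_mulVec, ← Matrix.SpecialLinearGroup.coe_mul]
        have : M * N'.transpose = 1 := inv_mul_cancel _
        rw [this, Matrix.SpecialLinearGroup.coe_one, one_mulVec])
    (by
      obtain ⟨x, hx⟩ := hΨ
      exact ⟨x, fun h => hx (hΘinj _ h)⟩)
  rw [Module.finrank_matrix, Module.finrank_self, mul_one, Fintype.card_fun] at h1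
  rw [Nat.card_eq_fintype_card]
  nlinarith

end Pool.Agent.U801.NC
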