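import Pool.Agent.U801.NC.Chars
import Pool.Agent.U943.PR.Grp

/-!
# The quotients `SL (N, F)` of `SL (m, ℤ)`

Let `N, m ≥ 3` and let `F` be a finite field.  If `SL (N, F)` is a quotient of `SL (m, ℤ)` then
`N = m` and `F` has a prime number of elements.
-/

set_option autoImplicit false

namespace Pool.Agent.U801.NC

open Matrix
open Pool.Agent.Helper460_CSP
open Pool.Agent.U943.PR
open Pool.Agent.H373SQ

/-- reindexing -/
def SLe {κ κ' F : Type*} [Fintype κ] [DecidableEq κ] [Fintype κ'] [DecidableEq κ'] [CommRing F]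
    (e : κ ≃ κ') : SpecialLinearGroup κ F ≃* SpecialLinearGroup κ' F where
  toFun := fun g => ⟨reindex e e g.1, by rw [det_reindex_self, g.2]⟩
  invFun := fun g => ⟨reindex e.symm e.symm g.1, by rw [det_reindex_self, g.2]⟩
  left_inv := fun g => by
    apply Subtype.ext
    ext i j
    simp
  right_inv := fun g => by
    apply Subtype.ext
    ext i j
    simp
  map_mul' := fun g h => by
    apply Subtype.ext
    show reindex e e (g.1 * h.1) = reindex e e g.1 * reindex e e h.1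
    rw [reindex_apply, reindex_apply, reindex_apply, submatrix_mul_equiv]

lemma SLe_apply {κ κ' F : Type*} [Fintype κ] [DecidableEq κ] [Fintype κ'] [DecidableEq κ']
    [CommRing F] (e : κ ≃ κ') (g : SpecialLinearGroup κ F) (i j : κ') :
    (SLe e g).1 i j = g.1 (e.symm i) (e.symm j) := rfl

lemma uB_not_center {κ κ' F : Type*} [Fintype κ] [DecidableEq κ] [Nonempty κ] [Fintype κ']
    [DecidableEq κ'] [Field F] (e : κ ⊕ Unit ≃ κ') :
    SLe e (uB (fun _ => (1 : F)) : SpecialLinearGroup (κ ⊕ Unit) F) ∉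
      Subgroup.center (SpecialLinearGroup κ' F) := by
  intro h
  obtain ⟨r, -, hr⟩ := Matrix.SpecialLinearGroup.mem_center_iff.1 h
  obtain ⟨i⟩ := (inferInstance : Nonempty κ)
  have h1 := congrFun (congrFun hr (e (Sum.inl i))) (e (Sum.inr ()))
  rw [SLe_apply, Equiv.symm_apply_apply, Equiv.symm_apply_apply, Matrix.scalar_apply,
    Matrix.diagonal_apply_ne] at h1
  · have h2 : (uB (fun _ => (1 : F)) : SpecialLinearGroup (κ ⊕ Unit) F).1 (Sum.inl i) (Sum.inr ()) =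
      1 := rfl
    rw [h2] at h1
    exact one_ne_zero h1.symm
  · intro h2
    have h3 := e.injective h2
    cases h3

lemma rp_tv_self {m p : ℕ} {i j : Fin m} (h : i ≠ j) : rp m p (tv i j h (p : ℤ)) = 1 := by
  rw [rp_one_iff]
  exact El_cgr (tv_El i j h dvd_rfl)

/-- Elementary matrices of level `ℓ` are killed if the matrices scalar modulo `ℓ` become central. -/
lemma El_ker {m : ℕ} (hm : 3 ≤ m) {G : Type*} [Group G] (φ : SZ m →* G) (ℓ : ℕ)
    (hc : ∀ g ∈ KP m ℓ, φ g ∈ Subgroup.center G) : El (Fin m) (ℓ : ℤ) ≤ φ.ker := by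
  apply El_le
  intro i j h
  obtain ⟨k, hki, hkj⟩ := exists_third hm i j
  have h2 := trans_comm (R := ℤ) h (Ne.symm hki) hkj (ℓ : ℤ) 1
  rw [mul_one] at h2
  have h3 : tv i j h (ℓ : ℤ) = tv i k (Ne.symm hki) (ℓ : ℤ) * tv k j hkj 1 *
      (tv i k (Ne.symm hki) (ℓ : ℤ))⁻¹ * (tv k j hkj 1)⁻¹ := h2.symm
  have h4 : φ (tv i k (Ne.symm hki) (ℓ : ℤ)) ∈ Subgroup.center G := by
    apply hc
    show pip m ℓ _ = 1
    unfold pip
    rw [MonoidHom.comp_apply, rp_tv_self, map_one]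
  rw [MonoidHom.mem_ker, h3, map_mul, map_mul, map_mul, map_inv, map_inv]
  rw [Subgroup.mem_center_iff] at h4
  rw [← h4, mul_inv_cancel_right, mul_inv_cancel]

lemma le_prod2 (n q : ℕ) (hq : 2 ≤ q) (hn : 1 ≤ n) :
    q ^ (∑ i ∈ Finset.Icc 2 n, i) * (2 ^ (n - 1) + 1) ≤
      2 ^ n * ∏ i ∈ Finset.Icc 2 n, (q ^ i - 1) := by
  induction n, hn using Nat.le_induction with
  | base => simp
  | succ n hn ih =>
    rw [Finset.sum_Icc_succ_top (by omega), Finset.prod_Icc_succ_top (by omega), Nat.add_sub_cancel]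
    set A := ∑ i ∈ Finset.Icc 2 n, i
    set X := ∏ i ∈ Finset.Icc 2 n, (q ^ i - 1)
    obtain ⟨k, rfl⟩ : ∃ k, n = k + 1 := ⟨n - 1, by omega⟩
    rw [Nat.add_sub_cancel] at ih
    have h1 : 2 ^ (k + 1 + 1) ≤ q ^ (k + 1 + 1) := Nat.pow_le_pow_left hq _
    obtain ⟨Q, hQ⟩ : ∃ Q, q ^ (k + 1 + 1) = Q + 1 :=
      ⟨q ^ (k + 1 + 1) - 1, by have := Nat.pow_pos (n := k + 1 + 1) (show 0 < q by omega); omega⟩
    have h2 : 2 ^ (k + 1) + 2 ≤ Q + 1 := by
      have : 2 ^ (k + 1 + 1) = 2 ^ (k + 1) + 2 ^ (k + 1) := by ring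
      have h3 : 2 ≤ 2 ^ (k + 1) := by
        calc 2 = 2 ^ 1 := rfl
          _ ≤ 2 ^ (k + 1) := Nat.pow_le_pow_right (by norm_num) (by omega)
      omega
    rw [pow_add, hQ, Nat.add_sub_cancel]
    have h4 : (Q + 1) * (2 ^ (k + 1) + 1) ≤ 2 * (2 ^ k + 1) * Q := by
      have : 2 ^ (k + 1) = 2 * 2 ^ k := by ring
      rw [this] at h2 ⊢
      nlinarith
    calc q ^ A * (Q + 1) * (2 ^ (k + 1) + 1) = q ^ A * ((Q + 1) * (2 ^ (k + 1) + 1)) := by ring
      _ ≤ q ^ A * (2 * (2 ^ k + 1) * Q) := Nat.mul_le_mul_left _ h4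
      _ = 2 * Q * (q ^ A * (2 ^ k + 1)) := by ring
      _ ≤ 2 * Q * (2 ^ (k + 1) * X) := Nat.mul_le_mul_left _ ih
      _ = 2 ^ (k + 1 + 1) * (X * Q) := by ring

lemma lt_two_prod (n q : ℕ) (hq : 2 ≤ q) (hn : 1 ≤ n) :
    q ^ (∑ i ∈ Finset.Icc 2 n, i) < 2 * ∏ i ∈ Finset.Icc 2 n, (q ^ i - 1) := by
  have h1 := le_prod2 n q hq hn
  obtain ⟨k, rfl⟩ : ∃ k, n = k + 1 := ⟨n - 1, by omega⟩
  rw [Nat.add_sub_cancel] at h1
  set X := ∏ i ∈ Finset.Icc 2 (k + 1), (q ^ i - 1)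
  set A := q ^ (∑ i ∈ Finset.Icc 2 (k + 1), i)
  have hA : 0 < A := Nat.pow_pos (by omega)
  have h2 : 2 ^ k * A < 2 ^ k * (2 * X) := by
    calc 2 ^ k * A < A * (2 ^ k + 1) := by nlinarith
      _ ≤ 2 ^ (k + 1) * X := h1
      _ = 2 ^ k * (2 * X) := by ring
  exact Nat.lt_of_mul_lt_mul_left h2

/-- The comparison of orders in the same characteristic. -/
lemma same_char {N m f l g h : ℕ} (hN : 3 ≤ N) (hm : 3 ≤ m) (hl : l.Prime) (hf : 1 ≤ f)
    (hg : ¬ l ∣ g) (hh : ¬ l ∣ h) (hle : numPSL N (l ^ f) ≤ numPSL m l)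
    (heq : numPSL N (l ^ f) * h = numPSL m l * g) : N = m ∧ f = 1 := by
  unfold numPSL at hle heq
  set X := ∏ i ∈ Finset.Icc 2 N, ((l ^ f) ^ i - 1) with hX
  set Y := ∏ i ∈ Finset.Icc 2 m, (l ^ i - 1) with hY
  set a := N * (N - 1) / 2 with ha
  set b := m * (m - 1) / 2 with hb
  rw [← pow_mul] at hle heq
  have hXl : ¬ l ∣ X := not_dvd_prod hl hf
  have hYl : ¬ l ∣ Y := by
    have := not_dvd_prod (n := m) hl (le_refl 1)
    simpa using this
  have e1 : f * a = b := by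
    refine val_eq hl (X := X * h) (Y := Y * g) ?_ ?_ ?_
    · intro hd
      rcases (hl.dvd_mul).1 hd with h1 | h1
      · exact hXl h1
      · exact hh h1
    · intro hd
      rcases (hl.dvd_mul).1 hd with h1 | h1
      · exact hYl h1
      · exact hg h1
    · rw [← mul_assoc, ← mul_assoc]
      exact heq
  rw [e1] at hle
  have e2 : X ≤ Y := Nat.le_of_mul_le_mul_left hle (Nat.pow_pos hl.pos)
  have hlf : 2 ≤ l ^ f := hl.two_le.trans (Nat.le_self_pow (by omega) l)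
  have e3 := lt_two_prod N (l ^ f) hlf (by omega)
  rw [← hX] at e3
  have e4 : Y ≤ l ^ (∑ i ∈ Finset.Icc 2 m, i) := prod_le m l
  set A := ∑ i ∈ Finset.Icc 2 N, i with hA
  set B := ∑ i ∈ Finset.Icc 2 m, i with hB
  have e5 : f * A ≤ B := by
    by_contra hcon
    push Not at hcon
    have h1 : l ^ (B + 1) ≤ l ^ (f * A) := Nat.pow_le_pow_right hl.pos (by omega)
    have h2 : 2 * l ^ B ≤ l ^ (B + 1) := by
      rw [pow_succ, mul_comm]
      exact Nat.mul_le_mul_left _ hl.two_le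
    rw [pow_mul] at h1
    omega
  obtain ⟨k, rfl⟩ : ∃ k, N = k + 1 := ⟨N - 1, by omega⟩
  obtain ⟨j, rfl⟩ : ∃ j, m = j + 1 := ⟨m - 1, by omega⟩
  have hA2 := sum_Icc2 k
  have hB2 := sum_Icc2 j
  rw [← hA] at hA2
  rw [← hB] at hB2
  have ha2 : 2 * a = (k + 1) * k := by
    rw [ha, Nat.add_sub_cancel]
    exact Nat.mul_div_cancel' (by rw [mul_comm]; exact (Nat.even_mul_succ_self k).two_dvd)
  have hb2 : 2 * b = (j + 1) * j := by
    rw [hb, Nat.add_sub_cancel]
    exact Nat.mul_div_cancel' (by rw [mul_comm]; exact (Nat.even_mul_succ_self j).two_dvd)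
  have e6 : f * ((k + 1) * k) = (j + 1) * j := by
    rw [← ha2, ← hb2, ← e1]; ring
  have e7 : f * (k * k + 3 * k) ≤ j * j + 3 * j := by
    rw [← hA2, ← hB2]
    nlinarith
  have e8 : f * k ≤ j := by nlinarith
  have e9 : j ≤ k := by
    have : (j + 1) * j ≤ (k + 1) * j := by
      rw [← e6]
      calc f * ((k + 1) * k) = (k + 1) * (f * k) := by ring
        _ ≤ (k + 1) * j := Nat.mul_le_mul_left _ e8
    have := Nat.le_of_mul_le_mul_right this (by omega)
    omega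
  have e10 : k ≤ j := (Nat.le_mul_of_pos_left k (by omega)).trans e8
  have e11 : k = j := le_antisymm e10 e9
  subst e11
  refine ⟨rfl, ?_⟩
  have : f * k ≤ 1 * k := by rw [one_mul]; exact e8
  have := Nat.le_of_mul_le_mul_right this (by omega)
  omega

lemma two_pow_gt (n : ℕ) (hn : 7 ≤ n) : n ^ 2 + 1 < 2 ^ (n - 1) := by
  induction n, hn using Nat.le_induction with
  | base => norm_num
  | succ n hn ih =>
    obtain ⟨k, rfl⟩ : ∃ k, n = k + 1 := ⟨n - 1, by omega⟩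
    rw [Nat.add_sub_cancel] at ih ⊢
    have h1 : 2 ^ (k + 1) = 2 * 2 ^ k := by ring
    rw [h1]
    nlinarith

lemma numeric : ∀ m N q l : Fin 7, (3 ≤ m.1 ∧ 3 ≤ N.1 ∧ 2 ≤ q.1 ∧ 2 ≤ l.1 ∧
    Nat.gcd q.1 l.1 = 1 ∧ q.1 ^ (N.1 - 1) ≤ m.1 ^ 2 + 1 ∧ l.1 ^ (m.1 - 1) ≤ N.1 ^ 2 + 1) →
    ¬ (numPSL N.1 q.1 * Nat.gcd m.1 (l.1 - 1) = numPSL m.1 l.1 * Nat.gcd N.1 (q.1 - 1)) := by
  decide +kernel

lemma different_char {N m q l : ℕ} (hN : 3 ≤ N) (hm : 3 ≤ m) (hq : 2 ≤ q) (hl : 2 ≤ l)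
    (hql : Nat.gcd q l = 1) (h1 : q ^ (N - 1) ≤ m ^ 2 + 1) (h2 : l ^ (m - 1) ≤ N ^ 2 + 1) :
    numPSL N q * Nat.gcd m (l - 1) ≠ numPSL m l * Nat.gcd N (q - 1) := by
  have hb : N < 7 ∧ m < 7 := by
    by_contra hcon
    rcases le_total N m with h | h
    · have hm7 : 7 ≤ m := by omega
      have h3 := two_pow_gt m hm7
      have h4 : 2 ^ (m - 1) ≤ l ^ (m - 1) := Nat.pow_le_pow_left hl _
      have h5 : N ^ 2 ≤ m ^ 2 := Nat.pow_le_pow_left h 2
      omega
    · have hN7 : 7 ≤ N := by omega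
      have h3 := two_pow_gt N hN7
      have h4 : 2 ^ (N - 1) ≤ q ^ (N - 1) := Nat.pow_le_pow_left hq _
      have h5 : m ^ 2 ≤ N ^ 2 := Nat.pow_le_pow_left h 2
      omega
  have hq7 : q < 7 := by
    by_contra hcon
    have h3 : 7 ^ 2 ≤ q ^ (N - 1) := (Nat.pow_le_pow_left (by omega) 2).trans
      (Nat.pow_le_pow_right (by omega) (by omega))
    have h5 : m ^ 2 ≤ 6 ^ 2 := Nat.pow_le_pow_left (by omega) 2
    omega
  have hl7 : l < 7 := by
    by_contra hcon
    have h3 : 7 ^ 2 ≤ l ^ (m - 1) := (Nat.pow_le_pow_left (by omega) 2).trans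
      (Nat.pow_le_pow_right (by omega) (by omega))
    have h5 : N ^ 2 ≤ 6 ^ 2 := Nat.pow_le_pow_left (by omega) 2
    omega
  exact numeric ⟨m, hb.2⟩ ⟨N, hb.1⟩ ⟨q, hq7⟩ ⟨l, hl7⟩ ⟨hm, hN, hq, hl, hql, h1, h2⟩

instance KP_normal {m p : ℕ} : (KP m p).Normal := by
  unfold KP
  infer_instance

/-- **The quotients `SL (N, F)` of `SL (m, ℤ)`.** -/
theorem classify {N m : ℕ} (hN : 3 ≤ N) (hm : 3 ≤ m) {F : Type} [Field F] [Finite F]
    (φ : SZ m →* SpecialLinearGroup (Fin N) F) (hφ : Function.Surjective φ) :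
    N = m ∧ ∃ ℓ : ℕ, ℓ.Prime ∧ Nat.card F = ℓ ∧
      ((QuotientGroup.mk' (Subgroup.center (SpecialLinearGroup (Fin N) F))).comp φ).ker =
        KP m ℓ := by
  classical
  have hFt := Fintype.ofFinite F
  let π : SZ m →* ProjectiveSpecialLinearGroup (Fin N) F := (QuotientGroup.mk' _).comp φ
  have hπ : Function.Surjective π := (QuotientGroup.mk'_surjective _).comp hφ
  obtain ⟨ℓ, hℓ, hker⟩ := key_psl hN hm π hπ
  have hℓF : Fact ℓ.Prime := ⟨hℓ⟩
  have hEl : El (Fin m) (ℓ : ℤ) ≤ φ.ker := by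
    refine El_ker hm φ ℓ fun g hg => ?_
    rw [← hker] at hg
    exact (QuotientGroup.eq_one_iff _).1 hg
  -- orders
  have hle : numPSL N (Nat.card F) ≤ numPSL m ℓ := by
    have h1 := card_SL N (by omega) F
    have h2 := card_SL m (by omega) (ZMod ℓ)
    rw [Nat.card_zmod] at h2
    rw [← h1, ← h2]
    have hk : (rp m ℓ).ker ≤ φ.ker := by
      intro g hg
      exact hEl (bls' hm (by exact_mod_cast hℓ.ne_zero) g (rp_one_iff.1 hg))
    let θ := (MonoidHom.liftOfSurjective (rp m ℓ) (rp_surj hm ℓ)) ⟨φ, hk⟩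
    have hθ : ∀ g, θ (rp m ℓ g) = φ g := fun g =>
      MonoidHom.liftOfRightInverse_comp_apply _ _ _ _ _
    have hθs : Function.Surjective θ := fun x => by
      obtain ⟨g, rfl⟩ := hφ x
      exact ⟨_, hθ g⟩
    exact Nat.card_le_card_of_surjective θ hθs
  have hcard : Nat.card (ProjectiveSpecialLinearGroup (Fin N) F) =
      Nat.card (ProjectiveSpecialLinearGroup (Fin m) (ZMod ℓ)) := by
    rw [← Nat.card_congr (QuotientGroup.quotientKerEquivOfSurjective π hπ).toEquiv, hker]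
    exact Nat.card_congr (QuotientGroup.quotientKerEquivOfSurjective _ (pip_surj hm ℓ)).toEquiv
  have h2 := card_SL_PSL N (by omega) F
  have h3 := card_SL_PSL m (by omega) (ZMod ℓ)
  rw [← hcard, Nat.card_zmod] at h3
  have heq : numPSL N (Nat.card F) * Nat.gcd m (ℓ - 1) =
      numPSL m ℓ * Nat.gcd N (Nat.card F - 1) := by
    rw [h2, h3]; ring
  by_cases hchar : ringChar F = ℓ
  · have hcp : CharP F ℓ := hchar ▸ ringChar.charP F
    obtain ⟨f, hf1, hf2⟩ := FiniteField.card F ℓ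
    rw [← Nat.card_eq_fintype_card] at hf2
    rw [hf2] at hle heq
    obtain ⟨h5, h6⟩ := same_char hN hm hℓ f.pos (g := Nat.gcd N (ℓ ^ (f : ℕ) - 1))
      (h := Nat.gcd m (ℓ - 1)) (by
        intro hd
        have h7 := hd.trans (Nat.gcd_dvd_right _ _)
        have h8 : ℓ ∣ ℓ ^ (f : ℕ) := dvd_pow_self _ f.ne_zero
        have h9 : ℓ ∣ ℓ ^ (f : ℕ) - (ℓ ^ (f : ℕ) - 1) := Nat.dvd_sub h8 h7
        have h10 : ℓ ^ (f : ℕ) - (ℓ ^ (f : ℕ) - 1) = 1 := by
          have := Nat.pow_pos (n := (f : ℕ)) hℓ.pos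
          omega
        rw [h10] at h9
        exact hℓ.one_lt.ne' (Nat.dvd_one.1 h9)) (by
        intro hd
        have h7 := hd.trans (Nat.gcd_dvd_right _ _)
        have h8 := Nat.le_of_dvd (by have := hℓ.two_le; omega) h7
        have := hℓ.two_le
        omega) hle heq
    exact ⟨h5, ℓ, hℓ, by rw [hf2, h6, pow_one], hker⟩
  · exfalso
    have e12 : ProjectiveSpecialLinearGroup (Fin N) F ≃*
        ProjectiveSpecialLinearGroup (Fin m) (ZMod ℓ) :=
      (QuotientGroup.quotientKerEquivOfSurjective π hπ).symm.trans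
        ((QuotientGroup.quotientMulEquivOfEq hker).trans
          (QuotientGroup.quotientKerEquivOfSurjective (pip m ℓ) (pip_surj hm ℓ)))
    have hc1 : ringChar (ZMod ℓ) ≠ ringChar F := by
      rw [ZMod.ringChar_zmod_n]
      exact fun h => hchar h.symm
    have b1 : Nat.card F ^ (N - 1) ≤ m ^ 2 + 1 := by
      have e : Fin (N - 1) ⊕ Unit ≃ Fin N := Fintype.equivOfCardEq (by simp; omega)
      have : Nonempty (Fin (N - 1)) := ⟨⟨0, by omega⟩⟩
      have h := cross (κ := Fin (N - 1)) (ι := Fin m) (F := F) (F' := ZMod ℓ)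
        (by rw [Fintype.card_fin]; omega) hc1
        (e12.toMonoidHom.comp ((QuotientGroup.mk' _).comp (SLe e).toMonoidHom))
        ⟨fun _ => 1, fun h => by
          have h1 : (QuotientGroup.mk' (Subgroup.center (SpecialLinearGroup (Fin N) F)))
              (SLe e (uB fun _ => 1)) = 1 := by
            apply e12.injective
            rw [map_one]
            exact h
          exact uB_not_center e ((QuotientGroup.eq_one_iff _).1 h1)⟩
      rwa [Fintype.card_fin, Fintype.card_fin] at h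
    have b2 : ℓ ^ (m - 1) ≤ N ^ 2 + 1 := by
      have e : Fin (m - 1) ⊕ Unit ≃ Fin m := Fintype.equivOfCardEq (by simp; omega)
      have : Nonempty (Fin (m - 1)) := ⟨⟨0, by omega⟩⟩
      have h := cross (κ := Fin (m - 1)) (ι := Fin N) (F := ZMod ℓ) (F' := F)
        (by rw [Fintype.card_fin]; omega) hc1.symm
        (e12.symm.toMonoidHom.comp ((QuotientGroup.mk' _).comp (SLe e).toMonoidHom))
        ⟨fun _ => 1, fun h => by
          have h1 : (QuotientGroup.mk' (Subgroup.center (SpecialLinearGroup (Fin m) (ZMod ℓ))))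
              (SLe e (uB fun _ => 1)) = 1 := by
            apply e12.symm.injective
            rw [map_one]
            exact h
          exact uB_not_center e ((QuotientGroup.eq_one_iff _).1 h1)⟩
      rwa [Fintype.card_fin, Fintype.card_fin, Nat.card_zmod] at h
    refine different_char hN hm (Finite.one_lt_card) hℓ.two_le ?_ b1 b2 heq
    obtain ⟨f, hf1, hf2⟩ := FiniteField.card F (ringChar F)
    rw [Nat.card_eq_fintype_card, hf2]
    exact Nat.Coprime.pow_left _ ((Nat.coprime_primes hf1 hℓ).2 hchar)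

end Pool.Agent.U801.NC
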