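import Pool.Agent.U801.NC.Ring4
import Pool.Agent.U943.PR.Main

/-!
# Groups of matrices over noncommutative rings with the finite quotients of `SL (m, ℤ)`
-/

set_option autoImplicit false

namespace Pool.Agent.U801.NC

open Matrix
open Pool.Agent.Helper460_CSP
open Pool.Agent.U943.PR

section el

variable {ι R : Type} [Fintype ι] [DecidableEq ι] [Ring R]

lemma elem_mul {i j : ι} (h : i ≠ j) (r s : R) :
    (1 + single i j r : Matrix ι ι R) * (1 + single i j s) = 1 + single i j (r + s) := by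
  rw [add_mul, one_mul, mul_add, mul_one, single_mul_single_of_ne _ _ _ _ h.symm, add_zero,
    single_add]
  abel

/-- elementary matrices over a noncommutative ring -/
def el {i j : ι} (h : i ≠ j) (r : R) : (Matrix ι ι R)ˣ where
  val := 1 + single i j r
  inv := 1 + single i j (-r)
  val_inv := by rw [elem_mul h, add_neg_cancel, single_zero, add_zero]
  inv_val := by rw [elem_mul h, neg_add_cancel, single_zero, add_zero]

lemma el_val {i j : ι} (h : i ≠ j) (r : R) : (el h r : Matrix ι ι R) = 1 + single i j r := rfl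

lemma el_inv_val {i j : ι} (h : i ≠ j) (r : R) :
    (((el h r)⁻¹ : (Matrix ι ι R)ˣ) : Matrix ι ι R) = 1 + single i j (-r) := rfl

lemma el_add {i j : ι} (h : i ≠ j) (r s : R) : el h (r + s) = el h r * el h s := by
  apply Units.ext
  rw [Units.val_mul, el_val, el_val, el_val, elem_mul h]

lemma el_zero {i j : ι} (h : i ≠ j) : el h (0 : R) = 1 := by
  apply Units.ext
  rw [el_val, single_zero, add_zero]
  rfl

lemma el_neg {i j : ι} (h : i ≠ j) (r : R) : el h (-r) = (el h r)⁻¹ := by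
  rw [eq_inv_iff_mul_eq_one, ← el_add, neg_add_cancel, el_zero]

lemma el_comm {i j k : ι} (hij : i ≠ j) (hik : i ≠ k) (hkj : k ≠ j) (a b : R) :
    el hik a * el hkj b * (el hik a)⁻¹ * (el hkj b)⁻¹ = el hij (a * b) := by
  apply Units.ext
  rw [Units.val_mul, Units.val_mul, Units.val_mul, el_val, el_val, el_inv_val, el_inv_val, el_val]
  have e1 : ∀ x y : R, single i k x * single k j y = single i j (x * y) := fun x y => by
    rw [single_mul_single_same]
  have e2 : ∀ x y : R, single k j x * single i k y = 0 := fun x y => by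
    rw [single_mul_single_of_ne _ _ _ _ hij.symm]
  have e3 : ∀ x y : R, single i k x * single i k y = 0 := fun x y => by
    rw [single_mul_single_of_ne _ _ _ _ hik.symm]
  have e4 : ∀ x y : R, single k j x * single k j y = 0 := fun x y => by
    rw [single_mul_single_of_ne _ _ _ _ hkj.symm]
  have e5 : ∀ x y : R, single i j x * single i k y = 0 := fun x y => by
    rw [single_mul_single_of_ne _ _ _ _ hij.symm]
  have e6 : ∀ x y : R, single i j x * single k j y = 0 := fun x y => by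
    rw [single_mul_single_of_ne _ _ _ _ hkj.symm]
  have n1 : ∀ (p q : ι) (x : R), single p q (-x) = - single p q x := fun p q x => by
    rw [single_neg]
  simp only [mul_add, add_mul, one_mul, mul_one, e1, e2, e3, e4, e5, e6, n1, mul_neg, neg_mul,
    neg_neg, add_zero, zero_add, neg_zero]
  abel

end el

section main

variable {n m : ℕ} {R : Type} [Ring R] {Λ : Subgroup (Matrix (Fin n) (Fin n) R)ˣ}

/-- The group contains the elementary matrices. -/
def HasEl (Λ : Subgroup (Matrix (Fin n) (Fin n) R)ˣ) : Prop :=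
  ∀ (i j : Fin n) (h : i ≠ j) (r : R), el h r ∈ Λ

/-- **Finite quotient rings.** -/
theorem exists_quot (hn : 3 ≤ n) (hE : HasEl Λ)
    (hRF : ∀ g : Λ, g ≠ 1 → ∃ H : Subgroup Λ, H.index ≠ 0 ∧ g ∉ H) (r : R) (hr : r ≠ 0) :
    ∃ (S : Type) (_ : Ring S) (_ : Finite S) (f : R →+* S), Function.Surjective f ∧ f r ≠ 0 := by
  classical
  let i0 : Fin n := ⟨0, by omega⟩
  let i1 : Fin n := ⟨1, by omega⟩
  have h01 : i0 ≠ i1 := by simp [i0, i1]
  let E : ∀ {i j : Fin n}, i ≠ j → R → Λ := fun {i j} h s => ⟨el h s, hE i j h s⟩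
  have hEadd : ∀ {i j : Fin n} (h : i ≠ j) (s t : R), E h (s + t) = E h s * E h t :=
    fun h s t => Subtype.ext (el_add h s t)
  have hEneg : ∀ {i j : Fin n} (h : i ≠ j) (s : R), E h (-s) = (E h s)⁻¹ :=
    fun h s => Subtype.ext (el_neg h s)
  have hEzero : ∀ {i j : Fin n} (h : i ≠ j), E h (0 : R) = 1 :=
    fun h => Subtype.ext (el_zero h)
  have hEcomm : ∀ {i j k : Fin n} (hij : i ≠ j) (hik : i ≠ k) (hkj : k ≠ j) (a b : R),
      E hik a * E hkj b * (E hik a)⁻¹ * (E hkj b)⁻¹ = E hij (a * b) :=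
    fun hij hik hkj a b => Subtype.ext (el_comm hij hik hkj a b)
  have hg : E h01 r ≠ 1 := by
    intro h
    apply hr
    have h1 := congrArg (fun g : Λ => (g.1 : Matrix (Fin n) (Fin n) R) i0 i1) h
    have h2 : ((E h01 r).1 : Matrix (Fin n) (Fin n) R) i0 i1 = r := by
      show (1 + single i0 i1 r : Matrix (Fin n) (Fin n) R) i0 i1 = r
      rw [Matrix.add_apply, Matrix.one_apply_ne h01, zero_add, Matrix.single_apply, if_pos ⟨rfl, rfl⟩]
    have h3 : (((1 : Λ)).1 : Matrix (Fin n) (Fin n) R) i0 i1 = 0 := Matrix.one_apply_ne h01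
    simp only [h2, h3] at h1
    exact h1
  obtain ⟨H, hH, hgH⟩ := hRF _ hg
  have hHf : H.FiniteIndex := ⟨hH⟩
  let K : Subgroup Λ := H.normalCore
  have hgK : E h01 r ∉ K := fun h => hgH (H.normalCore_le h)
  have hKf : Finite (Λ ⧸ K) := inferInstance
  let I : Ideal R :=
    { carrier := {s | ∀ (i j : Fin n) (h : i ≠ j), E h s ∈ K}
      zero_mem' := fun i j h => by rw [hEzero]; exact one_mem _
      add_mem' := fun {s t} hs ht i j h => by
        rw [hEadd]
        exact mul_mem (hs i j h) (ht i j h)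
      smul_mem' := fun b s hs i j h => by
        obtain ⟨k, hki, hkj⟩ := exists_third hn i j
        rw [smul_eq_mul, ← hEcomm h hki.symm hkj b s]
        exact mul_mem ((inferInstance : K.Normal).conj_mem _ (hs k j hkj) _)
          (inv_mem (hs k j hkj)) }
  have hI : I.IsTwoSided := ⟨by
    intro s b hs i j h
    obtain ⟨k, hki, hkj⟩ := exists_third hn i j
    rw [← hEcomm h hki.symm hkj s b]
    have h1 := (inferInstance : K.Normal).conj_mem _ (inv_mem (hs i k hki.symm)) (E hkj b)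
    have h2 := mul_mem (hs i k hki.symm) h1
    rw [← mul_assoc, ← mul_assoc] at h2
    exact h2⟩
  have hfin : Finite (R ⧸ I) := by
    let Φ : R ⧸ I → ({ij : Fin n × Fin n // ij.1 ≠ ij.2} → Λ ⧸ K) := fun q ij =>
      QuotientGroup.mk (E ij.2 (Function.surjInv Ideal.Quotient.mk_surjective q))
    refine Finite.of_injective Φ ?_
    intro q q' hqq
    have hq1 := Function.surjInv_eq (Ideal.Quotient.mk_surjective (I := I)) q
    have hq2 := Function.surjInv_eq (Ideal.Quotient.mk_surjective (I := I)) q'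
    rw [← hq1, ← hq2, Ideal.Quotient.eq]
    set s := Function.surjInv (Ideal.Quotient.mk_surjective (I := I)) q
    set t := Function.surjInv (Ideal.Quotient.mk_surjective (I := I)) q'
    have h1 : -s + t ∈ I := by
      intro i j h
      have h2 := congrFun hqq ⟨(i, j), h⟩
      have h3 := QuotientGroup.eq.1 h2
      rw [hEadd, hEneg]
      exact h3
    have h4 : s - t = -(-s + t) := by abel
    rw [h4]
    exact I.neg_mem h1
  refine ⟨R ⧸ I, inferInstance, hfin, Ideal.Quotient.mk I, Ideal.Quotient.mk_surjective, ?_⟩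
  intro h
  rw [Ideal.Quotient.eq_zero_iff_mem] at h
  exact hgK (h i0 i1 h01)

/-- Quotients of `SL (m, ℤ)` from finite quotient rings. -/
theorem exists_psi (hE : HasEl Λ) (hq : SameQ Λ m) {S : Type} [Ring S] [Finite S] (f : R →+* S)
    (hf : Function.Surjective f) : ∃ ψ : SZ m →* (Matrix (Fin n) (Fin n) S)ˣ, Has ψ := by
  let g : Λ →* (Matrix (Fin n) (Fin n) S)ˣ := (mU n f).comp Λ.subtype
  obtain ⟨φ, hφ⟩ := (hq g.range).1 ⟨g.rangeRestrict, g.rangeRestrict_surjective⟩
  refine ⟨g.range.subtype.comp φ, fun i j hij s => ?_⟩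
  obtain ⟨r, rfl⟩ := hf s
  obtain ⟨z, hz⟩ := hφ ⟨g ⟨el hij r, hE i j hij r⟩, ⟨_, rfl⟩⟩
  refine ⟨z, ?_⟩
  rw [MonoidHom.comp_apply, hz]
  show ((mU n f (el hij r) : (Matrix (Fin n) (Fin n) S)ˣ) : Matrix (Fin n) (Fin n) S) = _
  rw [mU_apply, el_val, map_elem]

/-- The ring is not zero. -/
lemma one_ne (hm : 3 ≤ m) (hq : SameQ Λ m) : (1 : R) ≠ 0 := by
  intro h
  have hR : Subsingleton R := ⟨fun a b => by
    rw [← one_mul a, ← one_mul b, h, zero_mul, zero_mul]⟩
  have hΛ : Subsingleton Λ := ⟨fun a b => Subtype.ext (Units.ext (Subsingleton.elim _ _))⟩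
  have h2 : Fact (Nat.Prime 2) := ⟨Nat.prime_two⟩
  obtain ⟨f, hf⟩ := (hq (SpecialLinearGroup (Fin m) (ZMod 2))).2 ⟨rp m 2, rp_surj hm 2⟩
  have h3 : Subsingleton (SpecialLinearGroup (Fin m) (ZMod 2)) := hf.subsingleton
  let i0 : Fin m := ⟨0, by omega⟩
  let i1 : Fin m := ⟨1, by omega⟩
  have h01 : i0 ≠ i1 := by simp [i0, i1]
  have h4 : (Matrix.SpecialLinearGroup.transvection h01 (1 : ZMod 2)) = 1 := Subsingleton.elim _ _
  have h5 := (psl_trans_inj (n := m) (F := ZMod 2) h01 1).1 (by rw [h4, map_one])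
  exact one_ne_zero h5

/-- **The rank divides.** -/
theorem rank_dvd (hn : 3 ≤ n) (hm : 3 ≤ m) (hE : HasEl Λ)
    (hRF : ∀ g : Λ, g ≠ 1 → ∃ H : Subgroup Λ, H.index ≠ 0 ∧ g ∉ H) (hq : SameQ Λ m) : n ∣ m := by
  obtain ⟨S, _, _, f, hf, hf1⟩ := exists_quot hn hE hRF 1 (one_ne hm hq)
  have hS : Nontrivial S := ⟨⟨f 1, 0, hf1⟩⟩
  obtain ⟨ψ, hψ⟩ := exists_psi hE hq f hf
  obtain ⟨t, D, d, hDR, hd, ⟨e⟩⟩ :=
    IsSemisimpleRing.exists_ringEquiv_pi_matrix_divisionRing (S ⧸ Ring.jacobson S)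
  have ht : ∃ i : Fin t, True := by
    by_contra hcon
    push Not at hcon
    have h1 : ∀ x : S ⧸ Ring.jacobson S, x = 0 := fun x => by
      apply e.injective
      ext i
      exact (hcon i).elim
    have h2 : (1 : S) ∈ Ring.jacobson S := Ideal.Quotient.eq_zero_iff_mem.1 (h1 _)
    exact (Ideal.ne_top_iff_one _).1 (Ring.jacobson_lt_top S).ne h2
  obtain ⟨i, -⟩ := ht
  let g : S →+* Matrix (Fin (d i)) (Fin (d i)) (D i) :=
    (Pi.evalRingHom _ i).comp (e.toRingHom.comp (Ideal.Quotient.mk (Ring.jacobson S)))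
  have hg : Function.Surjective g := by
    intro y
    obtain ⟨s, hs⟩ := Ideal.Quotient.mk_surjective (e.symm (Function.update 0 i y))
    refine ⟨s, ?_⟩
    show e (Ideal.Quotient.mk (Ring.jacobson S) s) i = y
    rw [hs, RingEquiv.apply_symm_apply, Function.update_self]
  have hfin : Finite (D i) := by
    have h1 : Finite (Matrix (Fin (d i)) (Fin (d i)) (D i)) := Finite.of_surjective _ hg
    exact Finite.of_surjective
      (fun M : Matrix (Fin (d i)) (Fin (d i)) (D i) => M 0 0)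
      (fun x => ⟨Matrix.of fun _ _ => x, rfl⟩)
  exact ⟨d i, (residue_matrix hn hm hψ (D := D i) (d i) (NeZero.ne _) g hg).symm⟩

/-- **The equal rank case.** -/
theorem equal_rank (hn : 3 ≤ n) (hE : HasEl Λ) (hfg : Group.FG Λ)
    (hRF : ∀ g : Λ, g ≠ 1 → ∃ H : Subgroup Λ, H.index ≠ 0 ∧ g ∉ H) (hq : SameQ Λ n) :
    Nonempty (R ≃+* ℤ) ∧ Nonempty (Λ ≃* SZ n) := by
  have hcomm : ∀ x y : R, x * y = y * x := by
    intro x y
    by_contra hne
    obtain ⟨S, _, _, f, hf, hf1⟩ := exists_quot hn hE hRF (x * y - y * x) (sub_ne_zero.2 hne)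
    obtain ⟨ψ, hψ⟩ := exists_psi hE hq f hf
    apply hf1
    rw [map_sub, map_mul, map_mul, comm_finite hn hψ, sub_self]
  letI : CommRing R := { (inferInstance : Ring R) with mul_comm := hcomm }
  have h := Pool.Agent.U943.PR.main (R := R) (Λ := Λ) hn hn (fun i j h r => by
    have h1 : (eG h r : GL (Fin n) R) = el h r := by
      apply Units.ext
      rfl
    rw [h1]
    exact hE i j h r) hfg hRF hq
  exact ⟨h.2.1, h.2.2⟩

end main

end Pool.Agent.U801.NC
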