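import Pool.Agent.U801.NC.Class

/-!
# Elementary matrices over noncommutative finite rings as quotients of `SL (m, ℤ)`: simple quotients
-/

set_option autoImplicit false

namespace Pool.Agent.U801.NC

open Matrix
open Pool.Agent.Helper460_CSP
open Pool.Agent.U943.PR

/-- the image of the homomorphism contains the elementary matrices -/
def Has {n m : ℕ} {S : Type} [Ring S] (ψ : SZ m →* (Matrix (Fin n) (Fin n) S)ˣ) : Prop :=
  ∀ i j : Fin n, i ≠ j → ∀ s : S, ∃ z : SZ m, (ψ z : Matrix (Fin n) (Fin n) S) = 1 + single i j s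

/-- the induced homomorphism -/
def mU {S A : Type} [Ring S] [Ring A] (n : ℕ) (f : S →+* A) :
    (Matrix (Fin n) (Fin n) S)ˣ →* (Matrix (Fin n) (Fin n) A)ˣ :=
  Units.map (f.mapMatrix : Matrix (Fin n) (Fin n) S →+* Matrix (Fin n) (Fin n) A).toMonoidHom

lemma mU_apply {S A : Type} [Ring S] [Ring A] {n : ℕ} (f : S →+* A)
    (g : (Matrix (Fin n) (Fin n) S)ˣ) :
    (mU n f g : Matrix (Fin n) (Fin n) A) = (g : Matrix (Fin n) (Fin n) S).map f := rfl

lemma map_elem {S A : Type} [Ring S] [Ring A] {ι : Type*} [DecidableEq ι] (f : S →+* A) (i j : ι)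
    (s : S) : (1 + single i j s : Matrix ι ι S).map f = 1 + single i j (f s) := by
  ext a b
  simp only [Matrix.map_apply, Matrix.add_apply, Matrix.one_apply, Matrix.single_apply, map_add]
  split_ifs <;> simp

lemma Has.map {n m : ℕ} {S A : Type} [Ring S] [Ring A]
    {ψ : SZ m →* (Matrix (Fin n) (Fin n) S)ˣ} (h : Has ψ) (f : S →+* A)
    (hf : Function.Surjective f) : Has ((mU n f).comp ψ) := by
  intro i j hij a
  obtain ⟨s, rfl⟩ := hf a
  obtain ⟨z, hz⟩ := h i j hij s
  refine ⟨z, ?_⟩
  rw [MonoidHom.comp_apply, mU_apply, hz, map_elem]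

section comm

variable {m : ℕ} {κ : Type} [Fintype κ] [DecidableEq κ] {D : Type} [CommRing D]

/-- A homomorphism to invertible matrices over a commutative ring has values of determinant one. -/
def toSL (hm : 3 ≤ m) (g : SZ m →* (Matrix κ κ D)ˣ) : SZ m →* SpecialLinearGroup κ D where
  toFun := fun z => ⟨(g z : Matrix κ κ D), by
    have h1 := hom_comm_trivial hm ((Units.map (detMonoidHom : Matrix κ κ D →* D)).comp g) z
    exact congrArg Units.val h1⟩
  map_one' := by
    apply Subtype.ext
    show ((g 1 : (Matrix κ κ D)ˣ) : Matrix κ κ D) = 1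
    rw [map_one, Units.val_one]
  map_mul' := fun a b => by
    apply Subtype.ext
    show ((g (a * b) : (Matrix κ κ D)ˣ) : Matrix κ κ D) = (g a : Matrix κ κ D) * (g b : Matrix κ κ D)
    rw [map_mul, Units.val_mul]

lemma toSL_apply (hm : 3 ≤ m) (g : SZ m →* (Matrix κ κ D)ˣ) (z : SZ m) :
    (toSL hm g z).1 = (g z : Matrix κ κ D) := rfl

end comm

section field

variable {n m : ℕ} {S : Type} [Ring S] {ψ : SZ m →* (Matrix (Fin n) (Fin n) S)ˣ}

/-- Residue fields. -/
lemma residue_field (hn : 3 ≤ n) (hm : 3 ≤ m) (h : Has ψ) {D : Type} [Field D] [Finite D]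
    (r : S →+* D) (hr : Function.Surjective r) : n = m ∧ ∃ ℓ : ℕ, ℓ.Prime ∧ Nat.card D = ℓ ∧
      ((QuotientGroup.mk' (Subgroup.center (SpecialLinearGroup (Fin n) D))).comp
        (toSL hm ((mU n r).comp ψ))).ker = KP m ℓ := by
  refine classify hn hm _ ?_
  have := nontriv hn
  intro A
  rw [← MonoidHom.mem_range]
  refine Pool.Agent.H463R3.PSLn.transvection_induction
    (P := fun A => A ∈ (toSL hm ((mU n r).comp ψ)).range) ?_ (fun A B => mul_mem) A
  intro i j hij c
  obtain ⟨z, hz⟩ := h.map r hr i j hij c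
  refine ⟨z, ?_⟩
  apply Subtype.ext
  rw [toSL_apply, hz, SpecialLinearGroup.transvection_coe]

/-- Matrix rings as quotients. -/
lemma residue_matrix (hn : 3 ≤ n) (hm : 3 ≤ m) (h : Has ψ) {D : Type} [Field D] [Finite D] (k : ℕ)
    (hk : k ≠ 0) (r : S →+* Matrix (Fin k) (Fin k) D) (hr : Function.Surjective r) : n * k = m := by
  have hk1 : 1 ≤ k := Nat.one_le_iff_ne_zero.2 hk
  let F : (Matrix (Fin n) (Fin n) (Matrix (Fin k) (Fin k) D))ˣ →*
      (Matrix (Fin n × Fin k) (Fin n × Fin k) D)ˣ :=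
    Units.map (compRingEquiv (Fin n) (Fin k) D).toRingHom.toMonoidHom
  have hF : ∀ g : (Matrix (Fin n) (Fin n) (Matrix (Fin k) (Fin k) D))ˣ,
      ((F g : (Matrix (Fin n × Fin k) (Fin n × Fin k) D)ˣ) :
        Matrix (Fin n × Fin k) (Fin n × Fin k) D) = comp (Fin n) (Fin n) (Fin k) (Fin k) D g.1 :=
    fun g => rfl
  let Φ : SZ m →* SpecialLinearGroup (Fin n × Fin k) D := toSL hm (F.comp ((mU n r).comp ψ))
  have hΦ : Function.Surjective Φ := by
    have : Nontrivial (Fin n × Fin k) := by
      have h1 := nontriv hn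
      have h2 : Nonempty (Fin k) := ⟨⟨0, by omega⟩⟩
      exact nontrivial_prod_left
    -- elementary matrices with indices in different blocks
    have hdiff : ∀ (i j : Fin n) (hij : i ≠ j) (a b : Fin k) (c : D)
        (hne : ((i, a) : Fin n × Fin k) ≠ (j, b)),
        (Matrix.SpecialLinearGroup.transvection hne c : SpecialLinearGroup (Fin n × Fin k) D) ∈
          Φ.range := by
      intro i j hij a b c hne
      obtain ⟨z, hz⟩ := h.map r hr i j hij (single a b c)
      refine ⟨z, ?_⟩
      apply Subtype.ext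
      rw [toSL_apply, SpecialLinearGroup.transvection_coe]
      show ((F (((mU n r).comp ψ) z) : (Matrix (Fin n × Fin k) (Fin n × Fin k) D)ˣ) :
        Matrix (Fin n × Fin k) (Fin n × Fin k) D) = _
      rw [hF, hz]
      have e1 : comp (Fin n) (Fin n) (Fin k) (Fin k) D
          (1 + single i j (single a b c) : Matrix (Fin n) (Fin n) (Matrix (Fin k) (Fin k) D)) =
          comp (Fin n) (Fin n) (Fin k) (Fin k) D 1 +
          comp (Fin n) (Fin n) (Fin k) (Fin k) D (single i j (single a b c)) := rfl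
      rw [e1, comp_one, comp_single_single]
    intro A
    rw [← MonoidHom.mem_range]
    refine Pool.Agent.H463R3.PSLn.transvection_induction
      (P := fun A => A ∈ Φ.range) ?_ (fun A B => mul_mem) A
    rintro ⟨i, a⟩ ⟨j, b⟩ hne c
    by_cases hij : i = j
    · subst hij
      obtain ⟨i', hi', -⟩ := exists_third hn i i
      have h1 : ((i, a) : Fin n × Fin k) ≠ (i', a) := fun h => hi' (congrArg Prod.fst h).symm
      have h2 : ((i', a) : Fin n × Fin k) ≠ (i, b) := fun h => hi' (congrArg Prod.fst h)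
      have h3 := trans_comm (R := D) hne h1 h2 c 1
      rw [mul_one] at h3
      rw [← h3]
      have m1 := hdiff i i' (Ne.symm hi') a a c h1
      have m2 := hdiff i' i hi' a b 1 h2
      exact mul_mem (mul_mem (mul_mem m1 m2) (inv_mem m1)) (inv_mem m2)
    · exact hdiff i j hij a b c hne
  have hN : 3 ≤ n * k := hn.trans (Nat.le_mul_of_pos_right n hk1)
  exact (classify hN hm ((SLe (F := D) finProdFinEquiv).toMonoidHom.comp Φ)
    ((SLe (F := D) finProdFinEquiv).surjective.comp hΦ)).1

end field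

end Pool.Agent.U801.NC
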