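import Pool.Agent.U801.NC.Ring1

/-!
# Elementary matrices over noncommutative finite rings as quotients of `SL (n, ℤ)`: the residue field
-/

set_option autoImplicit false

namespace Pool.Agent.U801.NC

open Matrix
open Pool.Agent.Helper460_CSP
open Pool.Agent.U943.PR

/-- one by one matrices -/
def oneByOne (D : Type) [Ring D] : Matrix (Fin 1) (Fin 1) D ≃+* D where
  toFun := fun M => M 0 0
  invFun := fun x => Matrix.of fun _ _ => x
  left_inv := fun M => by
    ext i j
    rw [Subsingleton.elim i 0, Subsingleton.elim j 0]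
    rfl
  right_inv := fun x => rfl
  map_mul' := fun M N => by
    rw [Matrix.mul_apply, Fin.sum_univ_one]
  map_add' := fun M N => rfl

lemma exists_oneByOne {k : ℕ} (hk : k = 1) (D : Type) [Ring D] :
    Nonempty (Matrix (Fin k) (Fin k) D ≃+* D) := by
  subst hk
  exact ⟨oneByOne D⟩

lemma card_residue {D : Type} [Field D] [Finite D] {p a ℓ : ℕ} (hp : p.Prime)
    (hpa : ((p ^ a : ℕ) : D) = 0) (hℓ : ℓ.Prime) (hD : Nat.card D = ℓ) : ℓ = p := by
  have := Fintype.ofFinite D
  obtain ⟨k, hk1, hk2⟩ := FiniteField.card D (ringChar D)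
  rw [← Nat.card_eq_fintype_card, hD] at hk2
  have h1 : ringChar D ∣ p ^ a := (ringChar.spec D _).1 hpa
  have h2 : ringChar D = p := (Nat.prime_dvd_prime_iff_eq hk1 hp).1 (hk1.dvd_of_dvd_pow h1)
  have h3 : ringChar D ∣ ℓ := by
    rw [hk2]
    exact dvd_pow_self _ k.ne_zero
  have h4 := (Nat.prime_dvd_prime_iff_eq hk1 hℓ).1 h3
  rw [← h4, h2]

/-- **The residue field.** -/
theorem local_struct {n : ℕ} (hn : 3 ≤ n) {S : Type} [Ring S] [Finite S] [Nontrivial S]
    {ψ : SZ n →* (Matrix (Fin n) (Fin n) S)ˣ} (h : Has ψ) {p a : ℕ} (hp : p.Prime)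
    (hpa : ((p ^ a : ℕ) : S) = 0) :
    ∃ (D : Type) (_ : Field D) (_ : Finite D) (r : S →+* D), Function.Surjective r ∧
      Nat.card D = p ∧ (∀ s, r s = 0 ↔ s ∈ Ring.jacobson S) ∧
      ((QuotientGroup.mk' (Subgroup.center (SpecialLinearGroup (Fin n) D))).comp
        (toSL hn ((mU n r).comp ψ))).ker = KP n p := by
  classical
  obtain ⟨t, D, d, hDR, hd, ⟨e⟩⟩ :=
    IsSemisimpleRing.exists_ringEquiv_pi_matrix_divisionRing (S ⧸ Ring.jacobson S)
  let f : ∀ i, S →+* Matrix (Fin (d i)) (Fin (d i)) (D i) := fun i =>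
    (Pi.evalRingHom _ i).comp (e.toRingHom.comp (Ideal.Quotient.mk (Ring.jacobson S)))
  have hfs : ∀ x : (∀ i, Matrix (Fin (d i)) (Fin (d i)) (D i)), ∃ s, ∀ i, f i s = x i := by
    intro x
    obtain ⟨s, hs⟩ := Ideal.Quotient.mk_surjective (e.symm x)
    refine ⟨s, fun i => ?_⟩
    show e (Ideal.Quotient.mk (Ring.jacobson S) s) i = x i
    rw [hs, RingEquiv.apply_symm_apply]
  have hfsurj : ∀ i, Function.Surjective (f i) := by
    intro i y
    obtain ⟨s, hs⟩ := hfs (Function.update 0 i y)
    exact ⟨s, by rw [hs i, Function.update_self]⟩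
  have hfin : ∀ i, Finite (D i) := by
    intro i
    have h1 : Finite (Matrix (Fin (d i)) (Fin (d i)) (D i)) := Finite.of_surjective _ (hfsurj i)
    exact Finite.of_surjective
      (fun M : Matrix (Fin (d i)) (Fin (d i)) (D i) => M 0 0)
      (fun x => ⟨Matrix.of fun _ _ => x, rfl⟩)
  have hd1 : ∀ i, d i = 1 := by
    intro i
    have h1 := residue_matrix hn hn h (D := D i) (d i) (NeZero.ne _) (f i) (hfsurj i)
    exact Nat.eq_of_mul_eq_mul_left (by omega : 0 < n) (by rw [h1, mul_one])
  let g : ∀ i, Matrix (Fin (d i)) (Fin (d i)) (D i) ≃+* D i := fun i =>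
    Classical.choice (exists_oneByOne (hd1 i) (D i))
  let r : ∀ i, S →+* D i := fun i => (g i).toRingHom.comp (f i)
  have hr : ∀ i, Function.Surjective (r i) := fun i => (g i).surjective.comp (hfsurj i)
  have hres : ∀ i, Nat.card (D i) = p ∧
      ((QuotientGroup.mk' (Subgroup.center (SpecialLinearGroup (Fin n) (D i)))).comp
        (toSL hn ((mU n (r i)).comp ψ))).ker = KP n p := by
    intro i
    obtain ⟨-, ℓ, hℓ, hcard, hker⟩ := residue_field hn hn h (r i) (hr i)
    have h1 : ℓ = p := by
      refine card_residue (D := D i) (a := a) hp ?_ hℓ hcard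
      have h2 := congrArg (r i) hpa
      rw [map_natCast, map_zero] at h2
      exact h2
    subst h1
    exact ⟨hcard, hker⟩
  -- uniqueness
  have huniq : ∀ i j : Fin t, i = j := by
    intro i j
    by_contra hij
    obtain ⟨s, hs⟩ := hfs (Function.update 0 j 1)
    have hsi : r i s = 0 := by
      show g i (f i s) = 0
      rw [hs i, Function.update_of_ne hij, Pi.zero_apply, map_zero]
    have hsj : r j s = 1 := by
      show g j (f j s) = 1
      rw [hs j, Function.update_self, map_one]
    let i0 : Fin n := ⟨0, by omega⟩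
    let i1 : Fin n := ⟨1, by omega⟩
    have h01 : i0 ≠ i1 := by simp [i0, i1]
    obtain ⟨z, hz⟩ := h i0 i1 h01 s
    have h1 : z ∈ KP n p := by
      rw [← (hres i).2, MonoidHom.mem_ker, MonoidHom.comp_apply]
      have h2 : toSL hn ((mU n (r i)).comp ψ) z = 1 := by
        apply Subtype.ext
        rw [toSL_apply, MonoidHom.comp_apply, mU_apply, hz, map_elem, hsi, single_zero, add_zero]
        rfl
      rw [h2, map_one]
    rw [← (hres j).2, MonoidHom.mem_ker, MonoidHom.comp_apply] at h1
    have h2 : toSL hn ((mU n (r j)).comp ψ) z = Matrix.SpecialLinearGroup.transvection h01 1 := by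
      apply Subtype.ext
      rw [toSL_apply, MonoidHom.comp_apply, mU_apply, hz, map_elem, hsj,
        SpecialLinearGroup.transvection_coe]
    rw [h2, psl_trans_inj] at h1
    exact one_ne_zero h1
  have ht : ∃ i : Fin t, True := by
    by_contra hcon
    push Not at hcon
    have h1 : ∀ x : S ⧸ Ring.jacobson S, x = 0 := fun x => by
      apply e.injective
      ext i
      exact (hcon i).elim
    have h2 : (1 : S) ∈ Ring.jacobson S := Ideal.Quotient.eq_zero_iff_mem.1 (h1 _)
    exact (Ideal.ne_top_iff_one _).1 (Ring.jacobson_lt_top S).ne h2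
  obtain ⟨i, -⟩ := ht
  refine ⟨D i, inferInstance, hfin i, r i, hr i, (hres i).1, fun s => ?_, (hres i).2⟩
  constructor
  · intro hs
    rw [← Ideal.Quotient.eq_zero_iff_mem]
    apply e.injective
    rw [map_zero]
    funext j
    rw [huniq j i]
    have h1 : g i (f i s) = g i 0 := by rw [map_zero]; exact hs
    exact (g i).injective h1
  · intro hs
    have h1 : Ideal.Quotient.mk (Ring.jacobson S) s = 0 := Ideal.Quotient.eq_zero_iff_mem.2 hs
    show g i (e (Ideal.Quotient.mk (Ring.jacobson S) s) i) = 0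
    rw [h1, map_zero, Pi.zero_apply, map_zero]

end Pool.Agent.U801.NC
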