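import Pool.Agent.U801.NC.Ring2

/-!
# Elementary matrices over noncommutative finite rings as quotients of `SL (n, ℤ)`: the radical
modulo its square is cyclic
-/

set_option autoImplicit false

namespace Pool.Agent.U801.NC

open Matrix
open Pool.Agent.Helper460_CSP
open Pool.Agent.U943.PR

section sq

variable {n : ℕ} {S : Type} [Ring S] {D : Type} [Ring D] (r : S →+* D)

/-- entries in the kernel -/
def InK (X : Matrix (Fin n) (Fin n) S) : Prop := ∀ i j, r (X i j) = 0

lemma InK.mul_zero (hsq : ∀ x y, r x = 0 → r y = 0 → x * y = 0) {X Y : Matrix (Fin n) (Fin n) S}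
    (hX : InK r X) (hY : InK r Y) : X * Y = 0 := by
  ext i j
  rw [Matrix.mul_apply, Matrix.zero_apply]
  exact Finset.sum_eq_zero fun k _ => hsq _ _ (hX i k) (hY k j)

lemma pow_one_add (hsq : ∀ x y, r x = 0 → r y = 0 → x * y = 0) {X : Matrix (Fin n) (Fin n) S}
    (hX : InK r X) (k : ℕ) : (1 + X) ^ k = 1 + k • X := by
  induction k with
  | zero => simp
  | succ k ih =>
    rw [pow_succ, ih, add_mul, one_mul, mul_add, mul_one, smul_mul_assoc, hX.mul_zero r hsq hX,
      smul_zero, add_zero, succ_nsmul]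
    abel

lemma pow_p (hsq : ∀ x y, r x = 0 → r y = 0 → x * y = 0) {p : ℕ} (hp : r (p : S) = 0)
    {g : (Matrix (Fin n) (Fin n) S)ˣ} (hg : InK r ((g : Matrix (Fin n) (Fin n) S) - 1)) :
    g ^ p = 1 := by
  apply Units.ext
  rw [Units.val_pow_eq_pow_val, Units.val_one]
  have h1 : (g : Matrix (Fin n) (Fin n) S) = 1 + ((g : Matrix (Fin n) (Fin n) S) - 1) := by abel
  rw [h1, pow_one_add r hsq hg]
  have h2 : p • ((g : Matrix (Fin n) (Fin n) S) - 1) = 0 := by
    ext i j
    rw [Matrix.smul_apply, nsmul_eq_mul, hsq _ _ hp (hg i j), Matrix.zero_apply]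
  rw [h2, add_zero]

end sq

lemma center_pow {n p : ℕ} [Fact p.Prime] (hn : 0 < n) (A : SpecialLinearGroup (Fin n) (ZMod p))
    (hA : A ∈ Subgroup.center (SpecialLinearGroup (Fin n) (ZMod p))) : A ^ (p - 1) = 1 := by
  obtain ⟨ρ, hρ, hA⟩ := Matrix.SpecialLinearGroup.mem_center_iff.1 hA
  have hρ0 : ρ ≠ 0 := by
    rintro rfl
    rw [Fintype.card_fin, zero_pow (by omega)] at hρ
    exact zero_ne_one hρ
  apply Subtype.ext
  rw [Matrix.SpecialLinearGroup.coe_pow, ← hA, ← map_pow, ZMod.pow_card_sub_one_eq_one hρ0, map_one]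
  rfl

/-- **The square zero case.** -/
theorem sq_zero {n : ℕ} (hn : 3 ≤ n) {S : Type} [Ring S] [Finite S]
    {ψ : SZ n →* (Matrix (Fin n) (Fin n) S)ˣ} (h : Has ψ) {p : ℕ} (hp : p.Prime)
    {D : Type} [Field D] [Finite D] (r : S →+* D) (hD : Nat.card D = p)
    (hker : ((QuotientGroup.mk' (Subgroup.center (SpecialLinearGroup (Fin n) D))).comp
        (toSL hn ((mU n r).comp ψ))).ker = KP n p)
    (hsq : ∀ x y, r x = 0 → r y = 0 → x * y = 0) :
    ∃ x, r x = 0 ∧ ∀ y, r y = 0 → ∃ c : ℤ, y = c * x := by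
  classical
  have hpF : Fact p.Prime := ⟨hp⟩
  have hDt := Fintype.ofFinite D
  have hrp : r (p : S) = 0 := by
    rw [map_natCast, ← hD, Nat.card_eq_fintype_card]
    exact Nat.cast_card_eq_zero D
  -- level `p`
  have hElp : El (Fin n) (p : ℤ) ≤ (toSL hn ((mU n r).comp ψ)).ker := by
    refine El_ker hn _ p fun g hg => ?_
    rw [← hker] at hg
    exact (QuotientGroup.eq_one_iff _).1 hg
  have hInK : ∀ z, toSL hn ((mU n r).comp ψ) z = 1 →
      InK r ((ψ z : Matrix (Fin n) (Fin n) S) - 1) := by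
    intro z hz i j
    have h1 := congrArg Subtype.val hz
    rw [toSL_apply, MonoidHom.comp_apply, mU_apply] at h1
    have h2 := congrFun (congrFun h1 i) j
    rw [Matrix.map_apply] at h2
    rw [Matrix.sub_apply, map_sub, h2]
    show (1 : Matrix (Fin n) (Fin n) D) i j - r ((1 : Matrix (Fin n) (Fin n) S) i j) = 0
    rw [Matrix.one_apply, Matrix.one_apply]
    split_ifs <;> simp
  have hK1 : ∀ z, InK r ((ψ z : Matrix (Fin n) (Fin n) S) - 1) →
      toSL hn ((mU n r).comp ψ) z = 1 := by
    intro z hz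
    apply Subtype.ext
    rw [toSL_apply, MonoidHom.comp_apply, mU_apply]
    ext i j
    have h1 := hz i j
    rw [Matrix.sub_apply, map_sub, sub_eq_zero] at h1
    rw [Matrix.map_apply, h1]
    show r ((1 : Matrix (Fin n) (Fin n) S) i j) = (1 : Matrix (Fin n) (Fin n) D) i j
    rw [Matrix.one_apply, Matrix.one_apply]
    split_ifs <;> simp
  -- level `p ^ 2`
  have hElp2 : El (Fin n) ((p : ℤ) * (p : ℤ)) ≤ ψ.ker := by
    apply El_le
    intro i j hij
    rw [MonoidHom.mem_ker, tv_mul_zpow, map_zpow, zpow_natCast]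
    exact pow_p r hsq hrp (hInK _ (hElp (tv_El i j hij dvd_rfl)))
  -- the kernel as a vector space
  let V := (r : S →+ D).ker
  have hV : ∀ x : V, r x.1 = 0 := fun x => x.2
  let _ : Module (ZMod p) V := AddCommGroup.zmodModule (n := p) (fun x => by
    apply Subtype.ext
    show p • x.1 = 0
    rw [nsmul_eq_mul]
    exact hsq _ _ hrp (hV x))
  have hVfin : Finite V := inferInstance
  have hVt := Fintype.ofFinite V
  have hMF : Module.Finite (ZMod p) V := Module.Finite.of_finite
  let δ := Module.finrank (ZMod p) V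
  have hcardV : Fintype.card V = p ^ δ := by
    have := Module.card_eq_pow_finrank (K := ZMod p) (V := V)
    rwa [ZMod.card] at this
  let I := {ij : Fin n × Fin n // ij.1 ≠ ij.2}
  -- matrices with off-diagonal entries in the kernel
  let MX : (I → V) → Finset I → Matrix (Fin n) (Fin n) S := fun X T =>
    ∑ t ∈ T, single t.1.1 t.1.2 (X t).1
  have hMXK : ∀ X T, InK r (MX X T) := by
    intro X T i j
    simp only [MX]
    rw [Matrix.sum_apply, map_sum]
    refine Finset.sum_eq_zero fun t _ => ?_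
    rw [Matrix.single_apply]
    split_ifs
    · exact hV _
    · exact map_zero r
  have hexz : ∀ X T, ∃ z : SZ n, (ψ z : Matrix (Fin n) (Fin n) S) = 1 + MX X T := by
    intro X T
    induction T using Finset.induction_on with
    | empty => exact ⟨1, by simp [MX]⟩
    | insert t T ht ih =>
      obtain ⟨z, hz⟩ := ih
      obtain ⟨w, hw⟩ := h t.1.1 t.1.2 t.2 (X t).1
      refine ⟨w * z, ?_⟩
      rw [map_mul, Units.val_mul, hz, hw, add_mul, one_mul, mul_add, mul_one]
      have h1 : InK r (single t.1.1 t.1.2 (X t).1) := by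
        intro i j
        rw [Matrix.single_apply]
        split_ifs
        · exact hV _
        · exact map_zero r
      rw [h1.mul_zero r hsq (hMXK X T), add_zero]
      simp only [MX]
      rw [Finset.sum_insert ht]
      abel
  have hexG : ∀ X : I → V, ∃ z : SZ n, z ∈ El (Fin n) (p : ℤ) ∧
      (ψ z : Matrix (Fin n) (Fin n) S) = 1 + MX X Finset.univ := by
    intro X
    obtain ⟨z, hz⟩ := hexz X Finset.univ
    have hzK : InK r ((ψ z : Matrix (Fin n) (Fin n) S) - 1) := by
      rw [hz, add_sub_cancel_left]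
      exact hMXK _ _
    have h1 : z ∈ KP n p := by
      rw [← hker, MonoidHom.mem_ker, MonoidHom.comp_apply, hK1 z hzK, map_one]
    have h2 : rp n p z ∈ Subgroup.center (SpecialLinearGroup (Fin n) (ZMod p)) :=
      (QuotientGroup.eq_one_iff _).1 h1
    have h3 : z ^ (p - 1) ∈ El (Fin n) (p : ℤ) := by
      apply bls' hn (by exact_mod_cast hp.ne_zero)
      rw [← rp_one_iff, map_pow]
      exact center_pow (by omega) _ h2
    refine ⟨(z ^ (p - 1))⁻¹, inv_mem h3, ?_⟩
    have h4 : (ψ z) ^ p = 1 := pow_p r hsq hrp hzK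
    have h5 : ψ (z ^ (p - 1))⁻¹ = ψ z := by
      rw [map_inv, map_pow, inv_eq_iff_mul_eq_one, ← pow_succ, Nat.sub_add_cancel hp.one_lt.le, h4]
    rw [h5, hz]
  choose G hG1 hG2 using hexG
  have hGm : ∀ X i j, ∃ c : ℤ, (G X).1 i j - (1 : Matrix (Fin n) (Fin n) ℤ) i j = p * c :=
    fun X i j => El_cgr (hG1 X) i j
  choose c hc using hGm
  let Q : (I → V) → (Fin n × Fin n → ZMod p) := fun X ij => ((c X ij.1 ij.2 : ℤ) : ZMod p)
  have hQ : Function.Injective Q := by
    intro X Y hXY
    have h1 : ∀ i j, ((p : ℤ) * p) ∣ (G X).1 i j - (G Y).1 i j := by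
      intro i j
      have h2 := congrFun hXY (i, j)
      simp only [Q] at h2
      rw [← sub_eq_zero, ← Int.cast_sub, ZMod.intCast_zmod_eq_zero_iff_dvd] at h2
      have h3 : (G X).1 i j - (G Y).1 i j = p * (c X i j - c Y i j) := by
        rw [mul_sub, ← hc, ← hc]
        ring
      rw [h3]
      exact mul_dvd_mul_left _ h2
    have h2 : rp n (p * p) (G X) = rp n (p * p) (G Y) := by
      apply Subtype.ext
      ext i j
      show (((G X).1 i j : ℤ) : ZMod (p * p)) = (((G Y).1 i j : ℤ) : ZMod (p * p))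
      rw [← sub_eq_zero, ← Int.cast_sub, ZMod.intCast_zmod_eq_zero_iff_dvd]
      exact_mod_cast h1 i j
    have h3 : rp n (p * p) (G X * (G Y)⁻¹) = 1 := by
      rw [map_mul, map_inv, h2, mul_inv_cancel]
    rw [rp_one_iff] at h3
    have h4 : G X * (G Y)⁻¹ ∈ El (Fin n) ((p : ℤ) * (p : ℤ)) := by
      apply bls' hn (mul_ne_zero (by exact_mod_cast hp.ne_zero) (by exact_mod_cast hp.ne_zero))
      exact_mod_cast h3
    have h5 := hElp2 h4
    rw [MonoidHom.mem_ker, map_mul, map_inv, mul_inv_eq_one] at h5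
    have h6 : MX X Finset.univ = MX Y Finset.univ := by
      have h7 := hG2 X
      rw [h5, hG2 Y] at h7
      exact (add_left_cancel h7).symm
    funext t
    apply Subtype.ext
    have hent : ∀ Z : I → V, MX Z Finset.univ t.1.1 t.1.2 = (Z t).1 := by
      intro Z
      simp only [MX]
      rw [Matrix.sum_apply, Finset.sum_eq_single t]
      · rw [Matrix.single_apply, if_pos ⟨rfl, rfl⟩]
      · intro s _ hst
        rw [Matrix.single_apply, if_neg]
        rintro ⟨h8, h9⟩
        exact hst (Subtype.ext (Prod.ext h8 h9))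
      · intro h8
        exact absurd (Finset.mem_univ t) h8
    rw [← hent X, ← hent Y, h6]
  have hcard := Fintype.card_le_of_injective Q hQ
  rw [Fintype.card_fun, Fintype.card_fun, hcardV, ZMod.card, Fintype.card_prod, Fintype.card_fin,
    ← pow_mul] at hcard
  have hI : Fintype.card I + n = n * n := by
    have h1 : Fintype.card I = Fintype.card (Fin n × Fin n) -
        Fintype.card {ij : Fin n × Fin n // ij.1 = ij.2} := Fintype.card_subtype_compl _
    have h2 : Fintype.card {ij : Fin n × Fin n // ij.1 = ij.2} = n := by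
      have e : {ij : Fin n × Fin n // ij.1 = ij.2} ≃ Fin n :=
        { toFun := fun x => x.1.1
          invFun := fun i => ⟨(i, i), rfl⟩
          left_inv := fun x => Subtype.ext (Prod.ext rfl x.2)
          right_inv := fun i => rfl }
      rw [Fintype.card_congr e, Fintype.card_fin]
    rw [h1, h2, Fintype.card_prod, Fintype.card_fin]
    have : n ≤ n * n := Nat.le_mul_self n
    omega
  have hδ : δ ≤ 1 := by
    have h1 : δ * Fintype.card I ≤ n * n := (Nat.pow_le_pow_iff_right hp.one_lt).1 hcard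
    by_contra hcon
    push Not at hcon
    have h2 : 2 * Fintype.card I ≤ δ * Fintype.card I := Nat.mul_le_mul_right _ hcon
    nlinarith
  have hcyc : ∃ v : V, ∀ w : V, w ∈ AddSubgroup.zmultiples v := by
    rcases Nat.le_one_iff_eq_zero_or_eq_one.1 hδ with h0 | h1
    · have h2 : Fintype.card V = 1 := by rw [hcardV, h0, pow_zero]
      have h3 : Subsingleton V := Fintype.card_le_one_iff_subsingleton.1 h2.le
      exact ⟨0, fun w => by rw [Subsingleton.elim w 0]; exact zero_mem _⟩
    · have h2 : Nat.card V = p := by rw [Nat.card_eq_fintype_card, hcardV, h1, pow_one]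
      have h3 : Nontrivial V := by
        rw [← Fintype.one_lt_card_iff_nontrivial, ← Nat.card_eq_fintype_card, h2]
        exact hp.one_lt
      obtain ⟨v, hv⟩ := exists_ne (0 : V)
      exact ⟨v, fun w => mem_zmultiples_of_prime_card h2 hv⟩
  obtain ⟨v, hv⟩ := hcyc
  refine ⟨v.1, hV v, fun y hy => ?_⟩
  obtain ⟨k, hk⟩ := AddSubgroup.mem_zmultiples_iff.1 (hv ⟨y, hy⟩)
  refine ⟨k, ?_⟩
  have h2 := congrArg Subtype.val hk
  rw [AddSubgroup.coe_zsmul, zsmul_eq_mul] at h2
  exact h2.symm

end Pool.Agent.U801.NC
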