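import Pool.Agent.U801.NC.Ring3

/-!
# Elementary matrices over noncommutative finite rings as quotients of `SL (n, ℤ)`: commutativity
-/

set_option autoImplicit false

namespace Pool.Agent.U801.NC

open Matrix Polynomial
open Pool.Agent.Helper460_CSP
open Pool.Agent.U943.PR

/-- A finite ring of prime power characteristic, in the same rank, is commutative. -/
theorem comm_primary {n : ℕ} (hn : 3 ≤ n) {S : Type} [Ring S] [Finite S] [Nontrivial S]
    {ψ : SZ n →* (Matrix (Fin n) (Fin n) S)ˣ} (h : Has ψ) {p a : ℕ} (hp : p.Prime)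
    (hpa : ((p ^ a : ℕ) : S) = 0) (s t : S) : s * t = t * s := by
  classical
  have hpF : Fact p.Prime := ⟨hp⟩
  obtain ⟨D, _, _, r, hr, hD, hJ, hker⟩ := local_struct hn h hp hpa
  set J := Ring.jacobson S with hJdef
  obtain ⟨N, hN⟩ : IsNilpotent J := IsSemiprimaryRing.isNilpotent
  have hJ2 : J ^ 2 ≤ J := by
    intro x hx
    rw [Ideal.IsTwoSided.pow_succ] at hx
    exact Submodule.mul_induction_on hx (fun i hi j _ => J.mul_mem_right j hi)
      (fun x y hx hy => add_mem hx hy)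
  let r' : S ⧸ (J ^ 2) →+* D := Ideal.Quotient.lift (J ^ 2) r (fun x hx => (hJ x).2 (hJ2 hx))
  have hr' : ∀ x, r' (Ideal.Quotient.mk (J ^ 2) x) = r x := fun x => rfl
  have hfinq : Finite (S ⧸ (J ^ 2)) := Finite.of_surjective _ Ideal.Quotient.mk_surjective
  have hHas := h.map (Ideal.Quotient.mk (J ^ 2)) Ideal.Quotient.mk_surjective
  have hSL : toSL hn ((mU n r').comp ((mU n (Ideal.Quotient.mk (J ^ 2))).comp ψ)) =
      toSL hn ((mU n r).comp ψ) := by
    apply MonoidHom.ext
    intro z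
    apply Subtype.ext
    ext i j
    rfl
  obtain ⟨x', hx', hxy'⟩ := sq_zero hn hHas hp r' hD (by rw [hSL]; exact hker) (by
    intro x y hx hy
    obtain ⟨x, rfl⟩ := Ideal.Quotient.mk_surjective x
    obtain ⟨y, rfl⟩ := Ideal.Quotient.mk_surjective y
    rw [hr', hJ] at hx hy
    rw [← map_mul, Ideal.Quotient.eq_zero_iff_mem, Ideal.IsTwoSided.pow_succ]
    rw [Submodule.pow_one]
    exact Ideal.mul_mem_mul hx hy)
  obtain ⟨x, rfl⟩ := Ideal.Quotient.mk_surjective x'
  rw [hr', hJ] at hx'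
  have hbase : ∀ y ∈ J, ∃ c : ℤ, y - c * x ∈ J ^ 2 := by
    intro y hy
    obtain ⟨c, hc⟩ := hxy' (Ideal.Quotient.mk (J ^ 2) y) (by rw [hr', hJ]; exact hy)
    refine ⟨c, ?_⟩
    rw [← Ideal.Quotient.eq_zero_iff_mem, map_sub, map_mul, map_intCast, hc, sub_self]
  have hpow : ∀ k : ℕ, ∀ a ∈ J ^ (k + 1), ∃ c : ℤ, a - c * x ^ (k + 1) ∈ J ^ (k + 2) := by
    intro k
    induction k with
    | zero =>
      intro a ha
      rw [zero_add, Submodule.pow_one] at ha
      obtain ⟨c, hc⟩ := hbase a ha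
      exact ⟨c, by rwa [zero_add, pow_one]⟩
    | succ k ih =>
      intro a ha
      rw [Ideal.IsTwoSided.pow_succ] at ha
      refine Submodule.mul_induction_on ha ?_ ?_
      · intro i hi j hj
        obtain ⟨c, hc⟩ := hbase i hi
        obtain ⟨d, hd⟩ := ih j hj
        refine ⟨c * d, ?_⟩
        have e1 : i * j - ((c * d : ℤ) : S) * x ^ (k + 1 + 1) =
            (c : S) * (x * (j - d * x ^ (k + 1))) + (i - c * x) * j := by
          have e2 : x * ((d : S) * x ^ (k + 1)) = (d : S) * x ^ (k + 1 + 1) := by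
            rw [← mul_assoc, (Int.cast_commute d x).symm.eq, mul_assoc, ← pow_succ']
          rw [mul_sub, mul_sub, sub_mul, e2, Int.cast_mul, mul_assoc, mul_assoc]
          abel
        rw [e1]
        refine add_mem (Ideal.mul_mem_left _ _ ?_) ?_
        · rw [show k + 1 + 2 = (k + 2) + 1 by ring, Ideal.IsTwoSided.pow_succ]
          exact Ideal.mul_mem_mul hx' hd
        · rw [show k + 1 + 2 = 2 + (k + 1) by ring, Ideal.IsTwoSided.pow_add]
          exact Ideal.mul_mem_mul hc hj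
      · rintro u v ⟨c, hc⟩ ⟨d, hd⟩
        refine ⟨c + d, ?_⟩
        have e1 : u + v - ((c + d : ℤ) : S) * x ^ (k + 1 + 1) =
            (u - c * x ^ (k + 1 + 1)) + (v - d * x ^ (k + 1 + 1)) := by
          rw [Int.cast_add, add_mul]
          abel
        rw [e1]
        exact add_mem hc hd
  have happ : ∀ k : ℕ, ∀ s : S, ∃ P : ℤ[X], s - aeval x P ∈ J ^ (k + 1) := by
    intro k
    induction k with
    | zero =>
      intro s
      have h1 : r s ∈ AddSubgroup.zmultiples (1 : D) := mem_zmultiples_of_prime_card hD one_ne_zero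
      obtain ⟨z, hz⟩ := AddSubgroup.mem_zmultiples_iff.1 h1
      refine ⟨C z, ?_⟩
      rw [zero_add, Submodule.pow_one, ← hJ, map_sub, aeval_C, ← hz, zsmul_eq_mul, mul_one]
      simp
    | succ k ih =>
      intro s
      obtain ⟨P, hP⟩ := ih s
      obtain ⟨c, hc⟩ := hpow k _ hP
      refine ⟨P + C c * X ^ (k + 1), ?_⟩
      have e1 : s - aeval x (P + C c * X ^ (k + 1)) = s - aeval x P - c * x ^ (k + 1) := by
        rw [map_add, map_mul, map_pow, aeval_X, aeval_C, eq_intCast]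
        abel
      rw [e1]
      exact hc
  have hpoly : ∀ s : S, ∃ P : ℤ[X], s = aeval x P := by
    intro s
    obtain ⟨P, hP⟩ := happ N s
    refine ⟨P, ?_⟩
    rw [Ideal.IsTwoSided.pow_succ, hN] at hP
    have h1 : J * (0 : Ideal S) = ⊥ := by
      rw [eq_bot_iff]
      intro y hy
      exact Submodule.mul_induction_on hy (fun i _ j hj => by
        have : j = 0 := hj
        rw [this, mul_zero]
        exact zero_mem _) (fun x y hx hy => add_mem hx hy)
    rw [h1, Submodule.mem_bot, sub_eq_zero] at hP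
    exact hP
  obtain ⟨P, rfl⟩ := hpoly s
  obtain ⟨Q, rfl⟩ := hpoly t
  rw [← map_mul, ← map_mul, mul_comm]

/-- **Commutativity.** -/
theorem comm_finite {n : ℕ} (hn : 3 ≤ n) {S : Type} [Ring S] [Finite S]
    {ψ : SZ n →* (Matrix (Fin n) (Fin n) S)ˣ} (h : Has ψ) (s t : S) : s * t = t * s := by
  classical
  by_contra hne
  set c := s * t - t * s with hcdef
  have hc0 : c ≠ 0 := fun h0 => hne (sub_eq_zero.1 h0)
  have hord : addOrderOf c ≠ 1 := fun h1 => hc0 (AddMonoid.addOrderOf_eq_one_iff.1 h1)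
  obtain ⟨p, hp, hpc⟩ := Nat.exists_prime_and_dvd hord
  have hS0 : Nat.card S ≠ 0 := Nat.card_pos.ne'
  set q := ordProj[p] (Nat.card S) with hq
  set M := ordCompl[p] (Nat.card S) with hM
  have hqM : q * M = Nat.card S := Nat.ordProj_mul_ordCompl_eq_self _ _
  have hpM : ¬ p ∣ M := Nat.not_dvd_ordCompl hp hS0
  let I : Ideal S :=
    { carrier := {x | ∃ y, x = y * (q : S)}
      zero_mem' := ⟨0, by rw [zero_mul]⟩
      add_mem' := by
        rintro _ _ ⟨y, rfl⟩ ⟨z, rfl⟩
        exact ⟨y + z, by rw [add_mul]⟩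
      smul_mem' := by
        rintro b _ ⟨y, rfl⟩
        exact ⟨b * y, by rw [smul_eq_mul, mul_assoc]⟩ }
  have hI : I.IsTwoSided := ⟨by
    rintro _ b ⟨y, rfl⟩
    exact ⟨y * b, by rw [mul_assoc, mul_assoc, (Nat.cast_commute q b).eq]⟩⟩
  have hcI : c ∉ I := by
    rintro ⟨y, hy⟩
    have h1 : M • c = 0 := by
      rw [hy, nsmul_eq_mul, (Nat.cast_commute M _).eq, mul_assoc, ← Nat.cast_mul, hqM,
        ← (Nat.cast_commute (Nat.card S) y).eq, ← nsmul_eq_mul]
      exact card_nsmul_eq_zero' 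
    exact hpM (hpc.trans (addOrderOf_dvd_of_nsmul_eq_zero h1))
  have hfin : Finite (S ⧸ I) := Finite.of_surjective _ Ideal.Quotient.mk_surjective
  have hnt : Nontrivial (S ⧸ I) :=
    ⟨⟨Ideal.Quotient.mk I c, 0, fun h0 => hcI (Ideal.Quotient.eq_zero_iff_mem.1 h0)⟩⟩
  have h1 := comm_primary hn (h.map (Ideal.Quotient.mk I) Ideal.Quotient.mk_surjective) hp
    (a := (Nat.card S).factorization p) (by
      rw [← map_natCast (Ideal.Quotient.mk I), Ideal.Quotient.eq_zero_iff_mem]
      exact ⟨1, by rw [one_mul]⟩) (Ideal.Quotient.mk I s) (Ideal.Quotient.mk I t)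
  apply hcI
  rw [← Ideal.Quotient.eq_zero_iff_mem, hcdef, map_sub, map_mul, map_mul, h1, sub_self]

end Pool.Agent.U801.NC
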